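import Pool.Agent.Helper64_BM.Pi

/-!
Brunn-Minkowski, part 3: finite dimensional real normed spaces with an additive Haar measure.
-/

set_option autoImplicit false

open MeasureTheory Set Filter Topology
open scoped ENNReal Pointwise NNReal

namespace BM64

variable {E : Type*} [NormedAddCommGroup E] [NormedSpace ℝ E] [FiniteDimensional ℝ E]
  [MeasurableSpace E] [BorelSpace E]

/-- Multiplicative Brunn-Minkowski. -/
theorem bm_mul (μ : Measure E) [μ.IsAddHaarMeasure] {l : ℝ} (hl0 : 0 < l) (hl1 : l < 1)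
    {A B C : Set E} (hA : MeasurableSet A) (hB : MeasurableSet B) (hC : MeasurableSet C)
    (h : ∀ x ∈ A, ∀ y ∈ B, (1 - l) • x + l • y ∈ C) :
    μ A ^ (1 - l) * μ B ^ l ≤ μ C := by
  have h1l : (0:ℝ) < 1 - l := by linarith
  obtain ⟨e⟩ : Nonempty (E ≃L[ℝ] (Fin (Module.finrank ℝ E) → ℝ)) :=
    ⟨ContinuousLinearEquiv.ofFinrankEq (by simp)⟩
  have hmeas : Measurable e := e.continuous.measurable
  have hmeas' : Measurable e.symm := e.symm.continuous.measurable
  obtain ⟨c, hc⟩ : ∃ c : ℝ≥0, μ = c • Measure.map e.symm volume := by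
    have : (Measure.map e.symm (volume : Measure (Fin (Module.finrank ℝ E) → ℝ))).IsAddHaarMeasure :=
      e.symm.isAddHaarMeasure_map volume
    exact ⟨_, Measure.isAddLeftInvariant_eq_smul μ _⟩
  have ev : ∀ S : Set E, MeasurableSet S → μ S = (c : ℝ≥0∞) * volume (e.symm ⁻¹' S) := by
    intro S hS
    conv_lhs => rw [hc]
    rw [Measure.smul_apply, Measure.map_apply hmeas' hS]
    rfl
  rw [ev A hA, ev B hB, ev C hC, ENNReal.mul_rpow_of_nonneg _ _ h1l.le,
    ENNReal.mul_rpow_of_nonneg _ _ hl0.le, mul_mul_mul_comm,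
    ← ENNReal.rpow_add_of_nonneg _ _ h1l.le hl0.le, sub_add_cancel, ENNReal.rpow_one]
  gcongr
  refine bm_mul_pi hl0 hl1 (hmeas' hA) (hmeas' hB) (hmeas' hC) ?_
  intro x hx y hy
  have := h _ hx _ hy
  simpa using this

/-- Brunn-Minkowski, power form, sets. -/
theorem bm_pow_ennreal (μ : Measure E) [μ.IsAddHaarMeasure]
    {A B C : Set E} (hA : MeasurableSet A) (hB : MeasurableSet B) (hC : MeasurableSet C)
    (hA0 : A.Nonempty) (hB0 : B.Nonempty) (h : A + B ⊆ C) {a b : ℝ} (ha : 0 ≤ a) (hb : 0 ≤ b)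
    (hμA : ENNReal.ofReal (a ^ Module.finrank ℝ E) ≤ μ A)
    (hμB : ENNReal.ofReal (b ^ Module.finrank ℝ E) ≤ μ B) :
    ENNReal.ofReal ((a + b) ^ Module.finrank ℝ E) ≤ μ C := by
  obtain ⟨x₀, hx₀⟩ := hA0
  obtain ⟨y₀, hy₀⟩ := hB0
  rcases ha.eq_or_lt with rfl | ha
  · rw [zero_add]
    refine hμB.trans ?_
    rw [← measure_preimage_add μ (-x₀) B]
    refine measure_mono (fun y hy => h ⟨x₀, hx₀, -x₀ + y, hy, ?_⟩)
    simp
  rcases hb.eq_or_lt with rfl | hb
  · rw [add_zero]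
    refine hμA.trans ?_
    rw [← measure_preimage_add_right μ (-y₀) A]
    refine measure_mono (fun y hy => h ⟨y + -y₀, hy, y₀, hy₀, ?_⟩)
    simp
  have hab : 0 < a + b := add_pos ha hb
  have hl0 : 0 < b / (a + b) := by positivity
  have hl1 : b / (a + b) < 1 := by rw [div_lt_one hab]; linarith
  have hl1' : (0:ℝ) < 1 - b / (a + b) := by linarith
  have key := bm_mul μ hl0 hl1 (hA.const_smul₀ a⁻¹) (hB.const_smul₀ b⁻¹)
    (hC.const_smul₀ (a + b)⁻¹) ?_
  · have one : ∀ {r : ℝ} {S : Set E}, 0 < r → ENNReal.ofReal (r ^ Module.finrank ℝ E) ≤ μ S →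
        1 ≤ μ (r⁻¹ • S) := by
      intro r S hr hS
      rw [Measure.addHaar_smul, abs_of_pos (by positivity)]
      calc (1:ℝ≥0∞) = ENNReal.ofReal (r⁻¹ ^ Module.finrank ℝ E) *
            ENNReal.ofReal (r ^ Module.finrank ℝ E) := by
            rw [← ENNReal.ofReal_mul (by positivity), ← mul_pow, inv_mul_cancel₀ hr.ne']
            simp
        _ ≤ _ := by gcongr
    have k1 : 1 ≤ μ ((a + b)⁻¹ • C) := by
      refine le_trans ?_ key
      have e1 := ENNReal.rpow_le_rpow (one ha hμA) hl1'.le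
      have e2 := ENNReal.rpow_le_rpow (one hb hμB) hl0.le
      rw [ENNReal.one_rpow] at e1 e2
      calc (1:ℝ≥0∞) = 1 * 1 := by simp
        _ ≤ _ := mul_le_mul' e1 e2
    rw [Measure.addHaar_smul, abs_of_pos (by positivity)] at k1
    calc ENNReal.ofReal ((a + b) ^ Module.finrank ℝ E)
        ≤ ENNReal.ofReal ((a + b) ^ Module.finrank ℝ E) *
          (ENNReal.ofReal ((a + b)⁻¹ ^ Module.finrank ℝ E) * μ C) := by
          conv_lhs => rw [← mul_one (ENNReal.ofReal ((a + b) ^ Module.finrank ℝ E))]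
          gcongr
      _ = μ C := by
          rw [← mul_assoc, ← ENNReal.ofReal_mul (by positivity), ← mul_pow,
            mul_inv_cancel₀ hab.ne']
          simp
  · rintro _ ⟨x, hx, rfl⟩ _ ⟨y, hy, rfl⟩
    refine ⟨x + y, h ⟨x, hx, y, hy, rfl⟩, ?_⟩
    simp only [smul_smul, smul_add]
    congr 2
    · field_simp; ring
    · field_simp

/-- Brunn-Minkowski, power form: `a ^ n ≤ vol A` and `b ^ n ≤ vol B` imply
`(a + b) ^ n ≤ vol (A + B)`. -/
theorem bm_pow (μ : Measure E) [μ.IsAddHaarMeasure]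
    {A B : Set E} (hA : IsCompact A) (hB : IsCompact B)
    (hA0 : A.Nonempty) (hB0 : B.Nonempty) {a b : ℝ} (ha : 0 ≤ a) (hb : 0 ≤ b)
    (hμA : a ^ Module.finrank ℝ E ≤ μ.real A)
    (hμB : b ^ Module.finrank ℝ E ≤ μ.real B) :
    (a + b) ^ Module.finrank ℝ E ≤ μ.real (A + B) := by
  have hAB : IsCompact (A + B) := hA.add hB
  have hfin : μ (A + B) ≠ ⊤ := hAB.measure_lt_top.ne
  have := bm_pow_ennreal μ hA.measurableSet hB.measurableSet hAB.measurableSet hA0 hB0
    subset_rfl ha hb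
    (ENNReal.ofReal_le_of_le_toReal hμA) (ENNReal.ofReal_le_of_le_toReal hμB)
  rwa [ENNReal.ofReal_le_iff_le_toReal hfin] at this

/-- Brunn-Minkowski: `vol A ^ (1 / n) + vol B ^ (1 / n) ≤ vol (A + B) ^ (1 / n)`. -/
theorem bm_rpow (μ : Measure E) [μ.IsAddHaarMeasure] (hn : Module.finrank ℝ E ≠ 0)
    {A B : Set E} (hA : IsCompact A) (hB : IsCompact B) (hA0 : A.Nonempty) (hB0 : B.Nonempty) :
    μ.real A ^ (1 / (Module.finrank ℝ E : ℝ)) + μ.real B ^ (1 / (Module.finrank ℝ E : ℝ)) ≤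
      μ.real (A + B) ^ (1 / (Module.finrank ℝ E : ℝ)) := by
  have hn' : (Module.finrank ℝ E : ℝ) ≠ 0 := by exact_mod_cast hn
  have e : ∀ {x : ℝ}, 0 ≤ x → (x ^ (1 / (Module.finrank ℝ E : ℝ))) ^ Module.finrank ℝ E = x := by
    intro x hx
    rw [← Real.rpow_natCast, ← Real.rpow_mul hx, one_div, inv_mul_cancel₀ hn', Real.rpow_one]
  have h := bm_pow μ hA hB hA0 hB0
    (Real.rpow_nonneg measureReal_nonneg (1 / (Module.finrank ℝ E : ℝ)))
    (Real.rpow_nonneg measureReal_nonneg (1 / (Module.finrank ℝ E : ℝ)))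
    (e measureReal_nonneg).le (e measureReal_nonneg).le
  have h0 : 0 ≤ μ.real A ^ (1 / (Module.finrank ℝ E : ℝ)) +
      μ.real B ^ (1 / (Module.finrank ℝ E : ℝ)) :=
    add_nonneg (Real.rpow_nonneg measureReal_nonneg _) (Real.rpow_nonneg measureReal_nonneg _)
  have h2 := Real.rpow_le_rpow (pow_nonneg h0 _) h (by positivity :
    (0:ℝ) ≤ 1 / (Module.finrank ℝ E : ℝ))
  rw [← Real.rpow_natCast, ← Real.rpow_mul h0, mul_one_div, div_self hn', Real.rpow_one] at h2
  exact h2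

/-- Brunn-Minkowski in `EuclideanSpace ℝ (Fin n)`, power form. -/
theorem bm_pow_euclidean {n : ℕ} {A B : Set (EuclideanSpace ℝ (Fin n))}
    (hA : IsCompact A) (hB : IsCompact B) (hA0 : A.Nonempty) (hB0 : B.Nonempty)
    {a b : ℝ} (ha : 0 ≤ a) (hb : 0 ≤ b)
    (hμA : a ^ n ≤ volume.real A) (hμB : b ^ n ≤ volume.real B) :
    (a + b) ^ n ≤ volume.real (A + B) := by
  have := bm_pow (volume : Measure (EuclideanSpace ℝ (Fin n))) hA hB hA0 hB0 ha hb
    (by simpa using hμA) (by simpa using hμB)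
  simpa using this

/-- Brunn-Minkowski in `EuclideanSpace ℝ (Fin n)`. -/
theorem bm_euclidean {n : ℕ} (hn : n ≠ 0) {A B : Set (EuclideanSpace ℝ (Fin n))}
    (hA : IsCompact A) (hB : IsCompact B) (hA0 : A.Nonempty) (hB0 : B.Nonempty) :
    volume.real A ^ (1 / (n : ℝ)) + volume.real B ^ (1 / (n : ℝ)) ≤
      volume.real (A + B) ^ (1 / (n : ℝ)) := by
  have := bm_rpow (volume : Measure (EuclideanSpace ℝ (Fin n))) (by simpa using hn) hA hB hA0 hB0
  simpa using this

end BM64
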