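import Pool.Agent.Helper64_BM.Vol

/-!
The volume of `M + t • K` is a polynomial for convex bodies `M, K` in `Fin n → ℝ`.
-/

set_option autoImplicit false

open MeasureTheory Set Filter Topology
open scoped ENNReal Pointwise

namespace BM64

variable {n : ℕ}

lemma polyOn_limit {F : ℝ → ℝ} {G : ℕ → ℝ → ℝ} (hG : ∀ k, PolyOn n (G k))
    (hlim : ∀ t : ℝ, 0 ≤ t → Tendsto (fun k => G k t) atTop (𝓝 (F t))) : PolyOn n F := by
  intro t ht
  have h1 := hlim t ht
  have h2 : Tendsto (fun k => ∑ j ∈ Finset.range (n + 1),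
    G k j * (Lagrange.basis (Finset.range (n + 1)) (fun i : ℕ => (i : ℝ)) j).eval t) atTop
    (𝓝 (∑ j ∈ Finset.range (n + 1),
      F j * (Lagrange.basis (Finset.range (n + 1)) (fun i : ℕ => (i : ℝ)) j).eval t)) :=
    tendsto_finsetSum _ (fun j _ => (hlim j (Nat.cast_nonneg j)).mul_const _)
  refine tendsto_nhds_unique h1 (h2.congr (fun k => ?_))
  exact (hG k t ht).symm

theorem body_polyOn {M K : Set (Fin n → ℝ)} (hM : IsCompact M) (hMc : Convex ℝ M)
    (hK : IsCompact K) (hKc : Convex ℝ K) (hMi : (interior M).Nonempty) (hK0 : K.Nonempty) :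
    PolyOn n (fun t => volume.real (M + t • K)) := by
  obtain ⟨c, hc⟩ := hMi
  have hM0 : M.Nonempty := ⟨c, interior_subset hc⟩
  obtain ⟨b, hbi, hb⟩ := exists_mem_interior_convexHull_affineBasis (mem_interior_iff_mem_nhds.mp hc)
  have : Nonempty M := hM0.to_subtype
  have : Nonempty K := hK0.to_subtype
  obtain ⟨S₀, hS₀⟩ : ∃ S₀ : Finset (Fin n → ℝ), (S₀ : Set (Fin n → ℝ)) = range b :=
    ⟨(finite_range b).toFinset, (finite_range b).coe_toFinset⟩
  obtain ⟨S, hS⟩ : ∃ S : ℕ → Finset (Fin n → ℝ), S = fun k => S₀ ∪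
      (Finset.range k).image (fun i => ((TopologicalSpace.denseSeq M i : M) : Fin n → ℝ)) := ⟨_, rfl⟩
  obtain ⟨T, hT⟩ : ∃ T : ℕ → Finset (Fin n → ℝ), T = fun k =>
      (Finset.range (k + 1)).image (fun i => ((TopologicalSpace.denseSeq K i : K) : Fin n → ℝ)) :=
    ⟨_, rfl⟩
  have hSM : ∀ k, (S k : Set (Fin n → ℝ)) ⊆ M := by
    intro k x hx
    rw [hS] at hx
    simp only [Finset.coe_union, Finset.coe_image, mem_union, hS₀] at hx
    rcases hx with hx | ⟨i, _, rfl⟩
    · exact hb (subset_convexHull ℝ _ hx)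
    · exact (TopologicalSpace.denseSeq M i).2
  have hTK : ∀ k, (T k : Set (Fin n → ℝ)) ⊆ K := by
    intro k x hx
    rw [hT] at hx
    simp only [Finset.coe_image] at hx
    obtain ⟨i, _, rfl⟩ := hx
    exact (TopologicalSpace.denseSeq K i).2
  have hSmono : Monotone S := by
    intro k k' h
    rw [hS]
    exact Finset.union_subset_union_right (Finset.image_subset_image (Finset.range_mono h))
  have hTmono : Monotone T := by
    intro k k' h
    rw [hT]
    exact Finset.image_subset_image (Finset.range_mono (by omega))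
  have hSint : ∀ k, (interior (convexHull ℝ (S k : Set (Fin n → ℝ)))).Nonempty := by
    intro k
    refine ⟨c, interior_mono (convexHull_mono ?_) hbi⟩
    rw [hS, ← hS₀]
    simp
  have hT0 : ∀ k, (T k).Nonempty := by
    intro k
    rw [hT]
    exact ⟨_, Finset.mem_image_of_mem _ (Finset.mem_range.mpr (Nat.succ_pos k))⟩
  refine polyOn_limit (G := fun k t => volume.real
    (convexHull ℝ (S k : Set (Fin n → ℝ)) + t • convexHull ℝ (T k : Set (Fin n → ℝ))))
    (fun k => polytope_polyOn (hT0 k) (hSint k)) ?_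
  intro t ht
  obtain ⟨D, hD⟩ : ∃ D : ℕ → Set (Fin n → ℝ), D = fun k =>
    (convexHull ℝ (S k : Set (Fin n → ℝ)) + t • convexHull ℝ (T k : Set (Fin n → ℝ))) := ⟨_, rfl⟩
  have hDmono : Monotone D := by
    intro k k' h
    rw [hD]
    exact add_subset_add (convexHull_mono (by exact_mod_cast hSmono h))
      (smul_set_mono (convexHull_mono (by exact_mod_cast hTmono h)))
  have hDconv : ∀ k, Convex ℝ (D k) := by
    intro k
    rw [hD]
    exact (convex_convexHull ℝ _).add ((convex_convexHull ℝ _).smul t)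
  have hDsub : ∀ k, D k ⊆ M + t • K := by
    intro k
    rw [hD]
    exact add_subset_add (convexHull_min (hSM k) hMc)
      (smul_set_mono (convexHull_min (hTK k) hKc))
  have hCc : IsCompact (M + t • K) := hM.add (hK.smul t)
  have hUconv : Convex ℝ (⋃ k, D k) :=
    (directed_of_isDirected_le (fun i j h => hDmono h)).convex_iUnion (fun {i} => hDconv i)
  have hUint : (interior (⋃ k, D k)).Nonempty := by
    obtain ⟨p, hp⟩ := hSint 0
    obtain ⟨q, hq⟩ := hT0 0
    have hq' : t • q ∈ t • convexHull ℝ (T 0 : Set (Fin n → ℝ)) :=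
      ⟨q, subset_convexHull ℝ _ hq, rfl⟩
    refine ⟨p + t • q, mem_interior.mpr ⟨interior (convexHull ℝ (S 0 : Set (Fin n → ℝ))) +
      t • convexHull ℝ (T 0 : Set (Fin n → ℝ)), ?_, isOpen_interior.add_right,
      ⟨p, hp, _, hq', rfl⟩⟩⟩
    refine subset_trans ?_ (subset_iUnion D 0)
    rw [hD]
    exact add_subset_add interior_subset subset_rfl
  have hclos : closure (⋃ k, D k) = M + t • K := by
    refine subset_antisymm ?_ ?_
    · exact closure_minimal (iUnion_subset hDsub) hCc.isClosed
    · rintro _ ⟨x, hx, _, ⟨y, hy, rfl⟩, rfl⟩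
      have hx' : x ∈ closure (range (fun i => ((TopologicalSpace.denseSeq M i : M) : Fin n → ℝ))) := by
        have := TopologicalSpace.denseRange_denseSeq M ⟨x, hx⟩
        rw [closure_subtype] at this
        rwa [← range_comp] at this
      have hy' : y ∈ closure (range (fun i => ((TopologicalSpace.denseSeq K i : K) : Fin n → ℝ))) := by
        have := TopologicalSpace.denseRange_denseSeq K ⟨y, hy⟩
        rw [closure_subtype] at this
        rwa [← range_comp] at this
      refine map_mem_closure₂ (f := fun p q : Fin n → ℝ => p + t • q) (by fun_prop) hx' hy' ?_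
      rintro _ ⟨i, rfl⟩ _ ⟨j, rfl⟩
      refine mem_iUnion.mpr ⟨i + j + 1, ?_⟩
      rw [hD]
      refine ⟨_, subset_convexHull ℝ _ ?_, _, ⟨_, subset_convexHull ℝ _ ?_, rfl⟩, rfl⟩
      · rw [hS]
        refine Finset.mem_coe.mpr (Finset.mem_union_right _ (Finset.mem_image_of_mem _
          (Finset.mem_range.mpr (by omega))))
      · rw [hT]
        refine Finset.mem_coe.mpr (Finset.mem_image_of_mem _
          (Finset.mem_range.mpr (by omega)))
  have hvol : volume (⋃ k, D k) = volume (M + t • K) := by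
    refine le_antisymm (measure_mono (iUnion_subset hDsub)) ?_
    have hC : Convex ℝ (M + t • K) := hMc.add (hKc.smul t)
    rw [← measure_convex_interior hC, ← hclos,
      hUconv.interior_closure_eq_interior_of_nonempty_interior hUint]
    exact measure_mono interior_subset
  have h1 := tendsto_measure_iUnion_atTop (μ := (volume : Measure (Fin n → ℝ))) hDmono
  rw [hvol] at h1
  have h2 := (ENNReal.tendsto_toReal hCc.measure_lt_top.ne).comp h1
  rw [hD] at h2
  exact h2

end BM64
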