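import Mathlib

/-!
The log-sum-exp potential of a finite point set in `Fin n → ℝ` and its gradient map.
-/

set_option autoImplicit false

open MeasureTheory Set Filter Topology Matrix
open scoped ENNReal Pointwise

namespace BM64

variable {n : ℕ}

/-- The linear form `u ↦ s ⬝ᵥ u`. -/
noncomputable def ell (s : Fin n → ℝ) : (Fin n → ℝ) →L[ℝ] ℝ :=
  ∑ i, s i • (ContinuousLinearMap.proj i : (Fin n → ℝ) →L[ℝ] ℝ)

lemma ell_apply (s u : Fin n → ℝ) : ell s u = s ⬝ᵥ u := by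
  simp [ell, dotProduct]

/-- Partition function. -/
noncomputable def Zf (S : Finset (Fin n → ℝ)) (x : Fin n → ℝ) : ℝ := ∑ s ∈ S, Real.exp (s ⬝ᵥ x)

/-- Gibbs weights. -/
noncomputable def wt (S : Finset (Fin n → ℝ)) (x s : Fin n → ℝ) : ℝ := Real.exp (s ⬝ᵥ x) / Zf S x

/-- The gradient map. -/
noncomputable def grd (S : Finset (Fin n → ℝ)) (x : Fin n → ℝ) : Fin n → ℝ :=
  ∑ s ∈ S, wt S x s • s

/-- The Hessian. -/
noncomputable def hess (S : Finset (Fin n → ℝ)) (x : Fin n → ℝ) : Matrix (Fin n) (Fin n) ℝ :=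
  ∑ s ∈ S, wt S x s • vecMulVec (s - grd S x) (s - grd S x)

lemma Zf_pos {S : Finset (Fin n → ℝ)} (hS : S.Nonempty) (x : Fin n → ℝ) : 0 < Zf S x :=
  Finset.sum_pos (fun _ _ => Real.exp_pos _) hS

lemma wt_pos {S : Finset (Fin n → ℝ)} (hS : S.Nonempty) (x s : Fin n → ℝ) : 0 < wt S x s :=
  div_pos (Real.exp_pos _) (Zf_pos hS x)

lemma wt_sum {S : Finset (Fin n → ℝ)} (hS : S.Nonempty) (x : Fin n → ℝ) :
    ∑ s ∈ S, wt S x s = 1 := by
  unfold wt
  rw [← Finset.sum_div]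
  exact div_self (Zf_pos hS x).ne'

lemma grd_mem {S : Finset (Fin n → ℝ)} (hS : S.Nonempty) (x : Fin n → ℝ) :
    grd S x ∈ convexHull ℝ (S : Set (Fin n → ℝ)) := by
  have := (convex_convexHull ℝ (S : Set (Fin n → ℝ))).sum_mem (t := S) (w := wt S x)
    (z := fun s => s) (fun s _ => (wt_pos hS x s).le) (wt_sum hS x)
    (fun s hs => subset_convexHull ℝ _ hs)
  exact this

lemma hasFDerivAt_exp (s x : Fin n → ℝ) :
    HasFDerivAt (fun y : Fin n → ℝ => Real.exp (s ⬝ᵥ y)) (Real.exp (s ⬝ᵥ x) • ell s) x := by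
  have h : HasFDerivAt (fun y : Fin n → ℝ => ell s y) (ell s) x := (ell s).hasFDerivAt
  have := h.exp
  simpa only [ell_apply] using this

lemma hasFDerivAt_Zf (S : Finset (Fin n → ℝ)) (x : Fin n → ℝ) :
    HasFDerivAt (Zf S) (∑ s ∈ S, Real.exp (s ⬝ᵥ x) • ell s) x := by
  have := HasFDerivAt.fun_sum (u := S) (fun s _ => hasFDerivAt_exp s x)
  exact this

lemma hasFDerivAt_log {S : Finset (Fin n → ℝ)} (hS : S.Nonempty) (x : Fin n → ℝ) :
    HasFDerivAt (fun y => Real.log (Zf S y)) (ell (grd S x)) x := by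
  have h := (hasFDerivAt_Zf S x).log (Zf_pos hS x).ne'
  have e : (Zf S x)⁻¹ • ∑ s ∈ S, Real.exp (s ⬝ᵥ x) • ell s = ell (grd S x) := by
    refine ContinuousLinearMap.ext (fun u => ?_)
    rw [ell_apply, grd, sum_dotProduct]
    simp only [_root_.smul_apply, _root_.sum_apply, smul_eq_mul,
      ell_apply, smul_dotProduct, wt, Finset.mul_sum]
    refine Finset.sum_congr rfl (fun s _ => ?_)
    ring
  rwa [e] at h

lemma wt_eq {S : Finset (Fin n → ℝ)} (hS : S.Nonempty) (x s : Fin n → ℝ) :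
    wt S x s = Real.exp (ell s x - Real.log (Zf S x)) := by
  rw [Real.exp_sub, Real.exp_log (Zf_pos hS x), wt, ell_apply]

lemma hasFDerivAt_wt {S : Finset (Fin n → ℝ)} (hS : S.Nonempty) (x s : Fin n → ℝ) :
    HasFDerivAt (fun y => wt S y s) (wt S x s • ell (s - grd S x)) x := by
  have h1 : HasFDerivAt (fun y : Fin n → ℝ => ell s y) (ell s) x := (ell s).hasFDerivAt
  have h2 := (h1.sub (hasFDerivAt_log hS x)).exp
  have e : ell s - ell (grd S x) = ell (s - grd S x) := by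
    refine ContinuousLinearMap.ext (fun u => ?_)
    simp [ell_apply, sub_dotProduct]
  simp only [Pi.sub_apply] at h2
  rw [e, ← wt_eq hS] at h2
  have e2 : (fun y => wt S y s) = fun y => Real.exp (ell s y - Real.log (Zf S y)) := by
    ext y; exact wt_eq hS y s
  rw [e2]
  exact h2

lemma wt_sum_sub {S : Finset (Fin n → ℝ)} (hS : S.Nonempty) (x u : Fin n → ℝ) :
    ∑ s ∈ S, wt S x s * ((s - grd S x) ⬝ᵥ u) = 0 := by
  simp only [sub_dotProduct, mul_sub, Finset.sum_sub_distrib, ← Finset.sum_mul, wt_sum hS, one_mul]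
  rw [grd, sum_dotProduct]
  simp only [smul_dotProduct, smul_eq_mul, sub_self]

lemma hess_mulVec {S : Finset (Fin n → ℝ)} (hS : S.Nonempty) (x u : Fin n → ℝ) :
    hess S x *ᵥ u = ∑ s ∈ S, (wt S x s * ((s - grd S x) ⬝ᵥ u)) • s := by
  have h0 := wt_sum_sub hS x u
  have h1 : hess S x *ᵥ u = ∑ s ∈ S, (wt S x s * ((s - grd S x) ⬝ᵥ u)) • (s - grd S x) := by
    rw [hess, Matrix.sum_mulVec]
    refine Finset.sum_congr rfl (fun s _ => ?_)
    rw [Matrix.smul_mulVec, Matrix.vecMulVec_mulVec]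
    ext i
    simp only [Pi.smul_apply, smul_eq_mul, MulOpposite.smul_eq_mul_unop, MulOpposite.unop_op]
    ring
  rw [h1]
  simp only [smul_sub, Finset.sum_sub_distrib, ← Finset.sum_smul]
  rw [h0, zero_smul, sub_zero]

lemma hasFDerivAt_grd {S : Finset (Fin n → ℝ)} (hS : S.Nonempty) (x : Fin n → ℝ) :
    HasFDerivAt (grd S) (LinearMap.toContinuousLinearMap (Matrix.toLin' (hess S x))) x := by
  have h1 := HasFDerivAt.fun_sum (u := S) (fun s _ => (hasFDerivAt_wt hS x s).smul_const s)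
  have e : ∑ s ∈ S, (wt S x s • ell (s - grd S x)).smulRight s =
      LinearMap.toContinuousLinearMap (Matrix.toLin' (hess S x)) := by
    refine ContinuousLinearMap.ext (fun u => ?_)
    rw [LinearMap.coe_toContinuousLinearMap', Matrix.toLin'_apply, hess_mulVec hS]
    simp only [_root_.sum_apply, ContinuousLinearMap.smulRight_apply,
      _root_.smul_apply, smul_eq_mul, ell_apply]
  rw [e] at h1
  exact h1

lemma hess_posSemidef {S : Finset (Fin n → ℝ)} (hS : S.Nonempty) (x : Fin n → ℝ) :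
    (hess S x).PosSemidef := by
  unfold hess
  refine Matrix.posSemidef_sum _ (fun s _ => ?_)
  have := Matrix.posSemidef_vecMulVec_self_star (R := ℝ) (s - grd S x)
  rw [star_trivial] at this
  exact this.smul (wt_pos hS x s).le

lemma cheb {α : Type*} (S : Finset α) (E C c : α → ℝ) :
    2 * ((∑ s ∈ S, E s * C s * c s) * (∑ r ∈ S, E r) - (∑ s ∈ S, E s * C s) * (∑ r ∈ S, E r * c r)) =
      ∑ s ∈ S, ∑ r ∈ S, E s * E r * ((C s - C r) * (c s - c r)) := by
  have e1 : ∀ s r, E s * E r * ((C s - C r) * (c s - c r)) =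
      (E s * C s * c s) * E r - (E s * C s) * (E r * c r) - (E s * c s) * (E r * C r) +
        E s * (E r * C r * c r) := by
    intro s r; ring
  simp only [e1, Finset.sum_add_distrib, Finset.sum_sub_distrib, ← Finset.sum_mul_sum]
  ring

lemma exp_term_nonneg (a b : ℝ) : 0 ≤ (Real.exp a - Real.exp b) * (a - b) := by
  rcases le_total a b with h | h
  · have := Real.exp_le_exp.mpr h
    nlinarith
  · have := Real.exp_le_exp.mpr h
    nlinarith

lemma exp_term_zero {a b : ℝ} (h : (Real.exp a - Real.exp b) * (a - b) = 0) : a = b := by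
  rcases mul_eq_zero.mp h with h | h
  · exact Real.exp_injective (by linarith)
  · linarith

/-- Monotonicity of the gradient. -/
lemma grd_mono {S : Finset (Fin n → ℝ)} (hS : S.Nonempty) (x u : Fin n → ℝ) :
    0 ≤ (grd S (x + u) - grd S x) ⬝ᵥ u ∧
      ((grd S (x + u) - grd S x) ⬝ᵥ u = 0 → ∀ s ∈ S, ∀ r ∈ S, s ⬝ᵥ u = r ⬝ᵥ u) := by
  have hZ1 := Zf_pos hS (x + u)
  have hZ0 := Zf_pos hS x
  have e1 : (grd S (x + u) - grd S x) ⬝ᵥ u * (2 * (Zf S (x + u) * Zf S x)) =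
      ∑ s ∈ S, ∑ r ∈ S, Real.exp (s ⬝ᵥ x) * Real.exp (r ⬝ᵥ x) *
        ((Real.exp (s ⬝ᵥ u) - Real.exp (r ⬝ᵥ u)) * (s ⬝ᵥ u - r ⬝ᵥ u)) := by
    rw [← cheb]
    have g1 : grd S (x + u) ⬝ᵥ u * Zf S (x + u) =
        ∑ s ∈ S, Real.exp (s ⬝ᵥ x) * Real.exp (s ⬝ᵥ u) * (s ⬝ᵥ u) := by
      rw [grd, sum_dotProduct, Finset.sum_mul]
      refine Finset.sum_congr rfl (fun s _ => ?_)
      rw [smul_dotProduct, wt, dotProduct_add, Real.exp_add, smul_eq_mul]
      field_simp
    have g0 : grd S x ⬝ᵥ u * Zf S x = ∑ s ∈ S, Real.exp (s ⬝ᵥ x) * (s ⬝ᵥ u) := by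
      rw [grd, sum_dotProduct, Finset.sum_mul]
      refine Finset.sum_congr rfl (fun s _ => ?_)
      rw [smul_dotProduct, wt, smul_eq_mul]
      field_simp
    have z1 : Zf S (x + u) = ∑ s ∈ S, Real.exp (s ⬝ᵥ x) * Real.exp (s ⬝ᵥ u) := by
      refine Finset.sum_congr rfl (fun s _ => ?_)
      rw [dotProduct_add, Real.exp_add]
    rw [← g1, ← g0, ← z1]
    rw [sub_dotProduct]
    show _ = 2 * (grd S (x + u) ⬝ᵥ u * Zf S (x + u) * Zf S x -
      Zf S (x + u) * (grd S x ⬝ᵥ u * Zf S x))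
    ring
  have hpos : 0 < 2 * (Zf S (x + u) * Zf S x) := by positivity
  have hterm : ∀ s ∈ S, ∀ r ∈ S, 0 ≤ Real.exp (s ⬝ᵥ x) * Real.exp (r ⬝ᵥ x) *
        ((Real.exp (s ⬝ᵥ u) - Real.exp (r ⬝ᵥ u)) * (s ⬝ᵥ u - r ⬝ᵥ u)) := fun s _ r _ =>
    mul_nonneg (by positivity) (exp_term_nonneg _ _)
  constructor
  · have h0 : 0 ≤ (grd S (x + u) - grd S x) ⬝ᵥ u * (2 * (Zf S (x + u) * Zf S x)) := by
      rw [e1]
      exact Finset.sum_nonneg (fun s hs => Finset.sum_nonneg (fun r hr => hterm s hs r hr))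
    exact nonneg_of_mul_nonneg_left h0 hpos
  · intro h0 s hs r hr
    rw [h0, zero_mul] at e1
    have h1 := (Finset.sum_eq_zero_iff_of_nonneg
      (fun s hs => Finset.sum_nonneg (fun r hr => hterm s hs r hr))).mp e1.symm s hs
    have h2 := (Finset.sum_eq_zero_iff_of_nonneg (fun r hr => hterm s hs r hr)).mp h1 r hr
    have h3 := (mul_eq_zero.mp h2).resolve_left (by positivity)
    exact exp_term_zero h3

end BM64
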