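import Pool.Agent.Helper64_BM.Poly

/-!
Minkowski's first inequality for the coefficients of the volume polynomial; the cubic case.
-/

set_option autoImplicit false

open MeasureTheory Set Filter Topology
open scoped ENNReal Pointwise NNReal

namespace BM64

variable {E : Type*} [NormedAddCommGroup E] [NormedSpace ℝ E] [FiniteDimensional ℝ E]
  [MeasurableSpace E] [BorelSpace E]

lemma real_smul (μ : Measure E) [μ.IsAddHaarMeasure] {t : ℝ} (ht : 0 ≤ t) (K : Set E) :
    μ.real (t • K) = t ^ Module.finrank ℝ E * μ.real K := by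
  rw [measureReal_def, measureReal_def, Measure.addHaar_smul, ENNReal.toReal_mul,
    abs_of_nonneg (by positivity), ENNReal.toReal_ofReal (by positivity)]

/-- The binomial polynomial `(a + b X) ^ n`. -/
noncomputable def binp (n : ℕ) (a b : ℝ) : Polynomial ℝ :=
  ∑ k ∈ Finset.range (n + 1), Polynomial.monomial k ((n.choose k : ℝ) * a ^ (n - k) * b ^ k)

lemma binp_eval (n : ℕ) (a b t : ℝ) : (binp n a b).eval t = (a + t * b) ^ n := by
  rw [binp, Polynomial.eval_finsetSum, add_comm a, add_pow]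
  refine Finset.sum_congr rfl (fun k _ => ?_)
  rw [Polynomial.eval_monomial, mul_pow]
  ring

lemma binp_coeff {n k : ℕ} (hk : k ≤ n) (a b : ℝ) :
    (binp n a b).coeff k = (n.choose k : ℝ) * a ^ (n - k) * b ^ k := by
  rw [binp, Polynomial.finsetSum_coeff]
  simp only [Polynomial.coeff_monomial]
  rw [Finset.sum_ite_eq' (Finset.range (n + 1)) k]
  rw [if_pos (Finset.mem_range.mpr (by omega))]

lemma binp_natDegree (n : ℕ) (a b : ℝ) : (binp n a b).natDegree ≤ n := by
  refine Polynomial.natDegree_sum_le_of_forall_le _ _ (fun k hk => ?_)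
  exact (Polynomial.natDegree_monomial_le _).trans (Nat.lt_succ_iff.mp (Finset.mem_range.mp hk))

/-- Minkowski's first inequality, at both ends of the volume polynomial. -/
theorem mink_coeff (μ : Measure E) [μ.IsAddHaarMeasure] {n : ℕ} (hn : Module.finrank ℝ E = n)
    (hn1 : 1 ≤ n) {M K : Set E} (hM : IsCompact M) (hK : IsCompact K)
    (hM0 : M.Nonempty) (hK0 : K.Nonempty) {p : Polynomial ℝ} (hp : p.natDegree ≤ n)
    (hval : ∀ t : ℝ, 0 ≤ t → μ.real (M + t • K) = p.eval t)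
    (h0 : p.coeff 0 = μ.real M) (htop : p.coeff n = μ.real K)
    {a b : ℝ} (ha : 0 ≤ a) (hb : 0 ≤ b) (hax : a ^ n = μ.real M) (hby : b ^ n = μ.real K) :
    (n : ℝ) * a ^ (n - 1) * b ≤ p.coeff 1 ∧ (n : ℝ) * a * b ^ (n - 1) ≤ p.coeff (n - 1) := by
  have hq : ∀ t : ℝ, 0 < t → 0 ≤ (p - binp n a b).eval t := by
    intro t ht
    rw [Polynomial.eval_sub, binp_eval, ← hval t ht.le, sub_nonneg]
    subst hn
    refine bm_pow μ hM (hK.smul t) hM0 hK0.smul_set ha (by positivity) hax.le ?_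
    rw [real_smul μ ht.le, mul_pow, hby]
  constructor
  · have h1 : (p - binp n a b).coeff 0 = 0 := by
      rw [Polynomial.coeff_sub, binp_coeff (Nat.zero_le n), h0, ← hax]
      simp
    have h2 := coeff_one_nonneg h1 hq
    rw [Polynomial.coeff_sub, binp_coeff hn1, Nat.choose_one_right, pow_one] at h2
    linarith
  · have h1 : (p - binp n a b).natDegree ≤ n :=
      (Polynomial.natDegree_sub_le _ _).trans (max_le hp (binp_natDegree n a b))
    have h2 : (p - binp n a b).coeff n = 0 := by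
      rw [Polynomial.coeff_sub, binp_coeff le_rfl, htop, ← hby]
      simp
    have h3 : (p - binp n a b).natDegree ≤ n - 1 := by
      rw [Polynomial.natDegree_le_iff_coeff_eq_zero]
      intro N hN
      rcases (by omega : N = n ∨ n < N) with rfl | h
      · exact h2
      · exact Polynomial.coeff_eq_zero_of_natDegree_lt (lt_of_le_of_lt h1 h)
    have h4 := coeff_top_nonneg h3 hq
    rw [Polynomial.coeff_sub, binp_coeff (Nat.sub_le n 1)] at h4
    have e1 : n.choose (n - 1) = n := by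
      rw [Nat.choose_symm hn1, Nat.choose_one_right]
    rw [e1, Nat.sub_sub_self hn1, pow_one] at h4
    linarith

/-- Dimension 3: the volume of `M + t • K` is `x + 3 A t + 3 B t ^ 2 + y t ^ 3` with
`A ^ 3 ≥ x ^ 2 y` and `B ^ 3 ≥ x y ^ 2`. -/
theorem cubic (μ : Measure E) [μ.IsAddHaarMeasure] (hn : Module.finrank ℝ E = 3)
    {M K : Set E} (hM : IsCompact M) (hMc : Convex ℝ M)
    (hK : IsCompact K) (hKc : Convex ℝ K) (hMi : (interior M).Nonempty) (hK0 : K.Nonempty) :
    ∃ A B : ℝ, (∀ t : ℝ, 0 ≤ t →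
        μ.real (M + t • K) = μ.real M + 3 * A * t + 3 * B * t ^ 2 + μ.real K * t ^ 3) ∧
      0 ≤ A ∧ 0 ≤ B ∧ μ.real M ^ 2 * μ.real K ≤ A ^ 3 ∧ μ.real M * μ.real K ^ 2 ≤ B ^ 3 := by
  obtain ⟨p, hdeg, hval, h0, htop⟩ := exists_poly μ hM hMc hK hKc hMi hK0
  rw [hn] at hdeg htop
  have hroot : ∀ x : ℝ, 0 ≤ x → ∃ a : ℝ, 0 ≤ a ∧ a ^ 3 = x := by
    intro x hx
    refine ⟨x ^ (1 / 3 : ℝ), Real.rpow_nonneg hx _, ?_⟩
    rw [← Real.rpow_natCast, ← Real.rpow_mul hx]
    norm_num
  obtain ⟨a, ha, hax⟩ := hroot (μ.real M) measureReal_nonneg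
  obtain ⟨b, hb, hby⟩ := hroot (μ.real K) measureReal_nonneg
  have hmink := mink_coeff μ hn (by norm_num) hM hK (hMi.mono interior_subset) hK0 hdeg hval h0
    htop ha hb hax hby
  norm_num at hmink
  have hA : a ^ 2 * b ≤ p.coeff 1 / 3 := by linarith [hmink.1]
  have hB : a * b ^ 2 ≤ p.coeff 2 / 3 := by linarith [hmink.2]
  have hA0 : 0 ≤ a ^ 2 * b := by positivity
  have hB0 : 0 ≤ a * b ^ 2 := by positivity
  refine ⟨p.coeff 1 / 3, p.coeff 2 / 3, ?_, hA0.trans hA, hB0.trans hB, ?_, ?_⟩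
  · intro t ht
    rw [hval t ht, Polynomial.eval_eq_sum_range' (Nat.lt_succ_of_le hdeg)]
    simp only [Finset.sum_range_succ, Finset.sum_range_zero, h0, htop]
    ring
  · calc μ.real M ^ 2 * μ.real K = (a ^ 2 * b) ^ 3 := by rw [← hax, ← hby]; ring
      _ ≤ _ := pow_le_pow_left₀ hA0 hA 3
  · calc μ.real M * μ.real K ^ 2 = (a * b ^ 2) ^ 3 := by rw [← hax, ← hby]; ring
      _ ≤ _ := pow_le_pow_left₀ hB0 hB 3

end BM64
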