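import Mathlib

/-!
Brunn-Minkowski, part 1: the inequality on the line and the Prekopa-Leindler inequality on the line.
-/

set_option autoImplicit false

open MeasureTheory Set Filter Topology
open scoped ENNReal Pointwise

namespace BM64

/-- Brunn-Minkowski on the line for compact sets. -/
lemma bm_line_compact {A B : Set ℝ} (hA : IsCompact A) (hB : IsCompact B)
    (hA0 : A.Nonempty) (hB0 : B.Nonempty) :
    volume A + volume B ≤ volume (A + B) := by
  obtain ⟨a, ha, hamax⟩ := hA.exists_isGreatest hA0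
  obtain ⟨b, hb, hbmin⟩ := hB.exists_isLeast hB0
  have h1 : (fun x => b + x) '' A ⊆ A + B := by
    rintro _ ⟨x, hx, rfl⟩
    exact ⟨x, hx, b, hb, add_comm _ _⟩
  have h2 : (fun x => a + x) '' B ⊆ A + B := by
    rintro _ ⟨x, hx, rfl⟩
    exact ⟨a, ha, x, hx, rfl⟩
  have hm : MeasurableSet ((fun x => a + x) '' B) :=
    (hB.image (by fun_prop)).measurableSet
  have hd : AEDisjoint volume ((fun x => b + x) '' A) ((fun x => a + x) '' B) := by
    have hsub : (fun x => b + x) '' A ∩ (fun x => a + x) '' B ⊆ {a + b} := by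
      rintro _ ⟨⟨x, hx, rfl⟩, ⟨y, hy, hxy⟩⟩
      have e1 : x ≤ a := hamax hx
      have e2 : b ≤ y := hbmin hy
      have e3 : a + y = b + x := hxy
      rw [mem_singleton_iff]
      show b + x = a + b
      linarith
    exact measure_mono_null hsub (by simp)
  calc volume A + volume B
      = volume ((fun x => b + x) '' A) + volume ((fun x => a + x) '' B) := by
        rw [image_add_left, image_add_left, measure_preimage_add, measure_preimage_add]
    _ = volume ((fun x => b + x) '' A ∪ (fun x => a + x) '' B) :=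
        (measure_union₀ hm.nullMeasurableSet hd).symm
    _ ≤ volume (A + B) := measure_mono (union_subset h1 h2)

/-- Brunn-Minkowski on the line, weighted, for measurable sets. -/
lemma bm_line {A B C : Set ℝ} (hA : MeasurableSet A) (hB : MeasurableSet B)
    (hA0 : A.Nonempty) (hB0 : B.Nonempty) {l : ℝ} (hl0 : 0 < l) (hl1 : l < 1)
    (hC : ∀ x ∈ A, ∀ y ∈ B, (1 - l) * x + l * y ∈ C) :
    ENNReal.ofReal (1 - l) * volume A + ENNReal.ofReal l * volume B ≤ volume C := by
  have key : ∀ K : Set ℝ, K ⊆ A → IsCompact K → ∀ K' : Set ℝ, K' ⊆ B → IsCompact K' →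
      ENNReal.ofReal (1 - l) * volume K + ENNReal.ofReal l * volume K' ≤ volume C := by
    intro K hK hKc K' hK' hKc'
    obtain ⟨a, ha⟩ := hA0
    obtain ⟨b, hb⟩ := hB0
    have c1 : IsCompact (insert a K) := hKc.insert a
    have c2 : IsCompact (insert b K') := hKc'.insert b
    have c1' : IsCompact ((1 - l) • insert a K) := c1.smul _
    have c2' : IsCompact (l • insert b K') := c2.smul _
    have n1 : ((1 - l) • insert a K).Nonempty := (insert_nonempty a K).smul_set
    have n2 : (l • insert b K').Nonempty := (insert_nonempty b K').smul_set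
    have := bm_line_compact c1' c2' n1 n2
    rw [Measure.addHaar_smul, Measure.addHaar_smul] at this
    simp only [Module.finrank_self, pow_one] at this
    rw [abs_of_pos (by linarith : (0:ℝ) < 1 - l), abs_of_pos hl0] at this
    refine le_trans (add_le_add (mul_le_mul_right (measure_mono (subset_insert a K)) _)
      (mul_le_mul_right (measure_mono (subset_insert b K')) _)) (this.trans (measure_mono ?_))
    rintro _ ⟨_, ⟨x, hx, rfl⟩, _, ⟨y, hy, rfl⟩, rfl⟩
    have hx' : x ∈ A := by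
      rcases hx with rfl | hx
      · exact ha
      · exact hK hx
    have hy' : y ∈ B := by
      rcases hy with rfl | hy
      · exact hb
      · exact hK' hy
    exact hC x hx' y hy'
  have eA : volume A = ⨆ K : {K : Set ℝ // K ⊆ A ∧ IsCompact K}, volume K.1 := by
    rw [hA.measure_eq_iSup_isCompact]
    simp only [iSup_subtype, iSup_and]
  have eB : volume B = ⨆ K : {K : Set ℝ // K ⊆ B ∧ IsCompact K}, volume K.1 := by
    rw [hB.measure_eq_iSup_isCompact]
    simp only [iSup_subtype, iSup_and]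
  have : Nonempty {K : Set ℝ // K ⊆ A ∧ IsCompact K} := ⟨⟨∅, empty_subset _, isCompact_empty⟩⟩
  have : Nonempty {K : Set ℝ // K ⊆ B ∧ IsCompact K} := ⟨⟨∅, empty_subset _, isCompact_empty⟩⟩
  rw [eA, eB, ENNReal.mul_iSup, ENNReal.mul_iSup]
  exact ENNReal.iSup_add_iSup_le (fun K K' => key K.1 K.2.1 K.2.2 K'.1 K'.2.1 K'.2.2)

/-- Prekopa-Leindler on the line, normalised, real functions. -/
lemma pl_line_norm {f g h : ℝ → ℝ} (hf : Measurable f) (hg : Measurable g) (hh : Measurable h)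
    (f0 : ∀ x, 0 ≤ f x) (g0 : ∀ x, 0 ≤ g x) (h0 : ∀ x, 0 ≤ h x)
    (f1 : ∀ x, f x ≤ 1) (g1 : ∀ x, g x ≤ 1)
    (fs : ∀ t < 1, ∃ x, t < f x) (gs : ∀ t < 1, ∃ x, t < g x)
    {l : ℝ} (hl0 : 0 < l) (hl1 : l < 1)
    (hyp : ∀ x y, min (f x) (g y) ≤ h ((1 - l) * x + l * y)) :
    ENNReal.ofReal (1 - l) * (∫⁻ x, ENNReal.ofReal (f x)) +
      ENNReal.ofReal l * (∫⁻ x, ENNReal.ofReal (g x)) ≤ ∫⁻ x, ENNReal.ofReal (h x) := by
  rw [lintegral_eq_lintegral_meas_lt volume (Eventually.of_forall f0) hf.aemeasurable,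
    lintegral_eq_lintegral_meas_lt volume (Eventually.of_forall g0) hg.aemeasurable,
    lintegral_eq_lintegral_meas_lt volume (Eventually.of_forall h0) hh.aemeasurable]
  have mono : ∀ {u : ℝ → ℝ}, Antitone (fun t : ℝ => volume {a : ℝ | t < u a}) := by
    intro u s t hst
    exact measure_mono (fun a ha => lt_of_le_of_lt hst ha)
  have ms : ∀ {u : ℝ → ℝ}, Measurable (fun t : ℝ => volume {a : ℝ | t < u a}) :=
    fun {u} => (mono (u := u)).measurable
  rw [← lintegral_const_mul _ ms, ← lintegral_const_mul _ ms, ← lintegral_add_left (ms.const_mul _)]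
  refine lintegral_mono (fun t => ?_)
  show ENNReal.ofReal (1 - l) * volume {a | t < f a} + ENNReal.ofReal l * volume {a | t < g a} ≤
    volume {a | t < h a}
  by_cases ht : t < 1
  · refine bm_line (measurableSet_lt measurable_const hf) (measurableSet_lt measurable_const hg)
      (fs t ht) (gs t ht) hl0 hl1 ?_
    intro x hx y hy
    exact lt_of_lt_of_le (lt_min hx hy) (hyp x y)
  · have e1 : {a | t < f a} = ∅ := by
      ext a; simp only [mem_ofPred_eq, mem_empty_iff_false, iff_false]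
      intro h; exact ht (h.trans_le (f1 a))
    have e2 : {a | t < g a} = ∅ := by
      ext a; simp only [mem_ofPred_eq, mem_empty_iff_false, iff_false]
      intro h; exact ht (h.trans_le (g1 a))
    rw [e1, e2]
    simp

/-- Weighted arithmetic-geometric mean inequality in the extended nonnegative reals. -/
lemma amgm {l : ℝ} (hl0 : 0 < l) (hl1 : l < 1) (a b : ℝ≥0∞) :
    a ^ (1 - l) * b ^ l ≤ ENNReal.ofReal (1 - l) * a + ENNReal.ofReal l * b := by
  have h1l : (0:ℝ) < 1 - l := by linarith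
  by_cases ha : a = ⊤
  · subst ha
    have : ENNReal.ofReal (1 - l) * (⊤ : ℝ≥0∞) = ⊤ :=
      ENNReal.mul_top (by simpa using hl1)
    rw [this]; simp
  by_cases hb : b = ⊤
  · subst hb
    have : ENNReal.ofReal l * (⊤ : ℝ≥0∞) = ⊤ :=
      ENNReal.mul_top (by simpa using hl0)
    rw [this]; simp
  lift a to NNReal using ha
  lift b to NNReal using hb
  have := NNReal.geom_mean_le_arith_mean2_weighted (Real.toNNReal (1 - l)) (Real.toNNReal l) a b
    (by rw [← Real.toNNReal_add h1l.le hl0.le]; simp)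
  rw [Real.coe_toNNReal _ h1l.le, Real.coe_toNNReal _ hl0.le] at this
  rw [← ENNReal.coe_rpow_of_nonneg _ h1l.le, ← ENNReal.coe_rpow_of_nonneg _ hl0.le]
  unfold ENNReal.ofReal
  exact_mod_cast this

/-- Prekopa-Leindler on the line, bounded nonzero functions. -/
lemma pl_line_bdd {f g h : ℝ → ℝ≥0∞} (hf : Measurable f) (hg : Measurable g) (hh : Measurable h)
    {l : ℝ} (hl0 : 0 < l) (hl1 : l < 1)
    (hyp : ∀ x y, f x ^ (1 - l) * g y ^ l ≤ h ((1 - l) * x + l * y))
    (hM0 : (⨆ x, f x) ≠ 0) (hM1 : (⨆ x, f x) ≠ ⊤) (hN0 : (⨆ x, g x) ≠ 0) (hN1 : (⨆ x, g x) ≠ ⊤) :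
    (∫⁻ x, f x) ^ (1 - l) * (∫⁻ x, g x) ^ l ≤ ∫⁻ x, h x := by
  have h1l : (0:ℝ) < 1 - l := by linarith
  obtain ⟨M, hM⟩ : ∃ M, M = ⨆ x, f x := ⟨_, rfl⟩
  obtain ⟨N, hN⟩ : ∃ N, N = ⨆ x, g x := ⟨_, rfl⟩
  rw [← hM] at hM0 hM1
  rw [← hN] at hN0 hN1
  have fM : ∀ x, f x ≤ M := fun x => hM ▸ le_iSup f x
  have gN : ∀ x, g x ≤ N := fun x => hN ▸ le_iSup g x
  obtain ⟨K, hK⟩ : ∃ K, K = M ^ (1 - l) * N ^ l := ⟨_, rfl⟩
  have hK0 : K ≠ 0 := by
    rw [hK]
    refine mul_ne_zero ?_ ?_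
    · rw [Ne, ENNReal.rpow_eq_zero_iff_of_pos h1l]; exact hM0
    · rw [Ne, ENNReal.rpow_eq_zero_iff_of_pos hl0]; exact hN0
  have hK1 : K ≠ ⊤ := by
    rw [hK]
    exact ENNReal.mul_ne_top (ENNReal.rpow_ne_top_of_nonneg h1l.le hM1)
      (ENNReal.rpow_ne_top_of_nonneg hl0.le hN1)
  have aux : ∀ a b : ℝ≥0∞, a / M ^ (1 - l) * (b / N ^ l) * K = a * b := by
    intro a b
    have e1 : M ^ (1 - l) ≠ 0 := by
      rw [Ne, ENNReal.rpow_eq_zero_iff_of_pos h1l]; exact hM0
    have e2 : N ^ l ≠ 0 := by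
      rw [Ne, ENNReal.rpow_eq_zero_iff_of_pos hl0]; exact hN0
    have e3 : M ^ (1 - l) ≠ ⊤ := ENNReal.rpow_ne_top_of_nonneg h1l.le hM1
    have e4 : N ^ l ≠ ⊤ := ENNReal.rpow_ne_top_of_nonneg hl0.le hN1
    rw [hK, mul_mul_mul_comm, ENNReal.div_mul_cancel e1 e3, ENNReal.div_mul_cancel e2 e4]
  have fd : ∀ x, f x / M ≤ 1 := fun x => by
    rw [ENNReal.div_le_iff hM0 hM1, one_mul]; exact fM x
  have gd : ∀ x, g x / N ≤ 1 := fun x => by
    rw [ENNReal.div_le_iff hN0 hN1, one_mul]; exact gN x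
  have fdt : ∀ x, f x / M ≠ ⊤ := fun x => ne_top_of_le_ne_top ENNReal.one_ne_top (fd x)
  have gdt : ∀ x, g x / N ≠ ⊤ := fun x => ne_top_of_le_ne_top ENNReal.one_ne_top (gd x)
  have hdt : ∀ x, min 1 (h x / K) ≠ ⊤ := fun x =>
    ne_top_of_le_ne_top ENNReal.one_ne_top (min_le_left _ _)
  have sup1 : ∀ {u : ℝ → ℝ≥0∞} {S : ℝ≥0∞}, S = ⨆ x, u x → S ≠ 0 → S ≠ ⊤ →
      (∀ x, u x / S ≠ ⊤) → ∀ t < (1:ℝ), ∃ x, t < (u x / S).toReal := by
    intro u S hS hS0 hS1 hfin t ht
    have h1 : ENNReal.ofReal t * S < S := by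
      have : ENNReal.ofReal t * S < 1 * S :=
        ENNReal.mul_lt_mul_left hS0 hS1 (by simpa using ht)
      simpa using this
    have h2 : ENNReal.ofReal t * S < ⨆ x, u x := hS ▸ h1
    obtain ⟨x, hx⟩ := lt_iSup_iff.mp h2
    refine ⟨x, ?_⟩
    by_contra hcon
    push Not at hcon
    have ht0 : 0 ≤ t := ENNReal.toReal_nonneg.trans hcon
    rw [← ENNReal.le_ofReal_iff_toReal_le (hfin x) ht0, ENNReal.div_le_iff hS0 hS1] at hcon
    exact absurd hx (not_lt.mpr hcon)
  have key := pl_line_norm (f := fun x => (f x / M).toReal) (g := fun x => (g x / N).toReal)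
    (h := fun x => (min 1 (h x / K)).toReal)
    (hf.div_const _).ennreal_toReal (hg.div_const _).ennreal_toReal
    (measurable_const.min (hh.div_const _)).ennreal_toReal
    (fun x => ENNReal.toReal_nonneg) (fun x => ENNReal.toReal_nonneg)
    (fun x => ENNReal.toReal_nonneg)
    (fun x => by simpa using ENNReal.toReal_mono ENNReal.one_ne_top (fd x))
    (fun x => by simpa using ENNReal.toReal_mono ENNReal.one_ne_top (gd x))
    (sup1 hM hM0 hM1 fdt) (sup1 hN hN0 hN1 gdt) hl0 hl1 ?_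
  · simp only [ENNReal.ofReal_toReal (fdt _), ENNReal.ofReal_toReal (gdt _),
      ENNReal.ofReal_toReal (hdt _)] at key
    have k1 : ∫⁻ x, f x / M = (∫⁻ x, f x) / M := by
      simp only [div_eq_mul_inv]
      exact lintegral_mul_const' _ _ (by simpa using hM0)
    have k2 : ∫⁻ x, g x / N = (∫⁻ x, g x) / N := by
      simp only [div_eq_mul_inv]
      exact lintegral_mul_const' _ _ (by simpa using hN0)
    have k3 : ∫⁻ x, min 1 (h x / K) ≤ (∫⁻ x, h x) / K := by
      refine le_trans (lintegral_mono (fun x => min_le_right _ _)) ?_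
      simp only [div_eq_mul_inv]
      exact (lintegral_mul_const' _ _ (by simpa using hK0)).le
    rw [k1, k2] at key
    have key2 := (amgm hl0 hl1 _ _).trans (key.trans k3)
    rw [ENNReal.div_rpow_of_nonneg _ _ h1l.le, ENNReal.div_rpow_of_nonneg _ _ hl0.le] at key2
    rw [ENNReal.le_div_iff_mul_le (Or.inl hK0) (Or.inl hK1)] at key2
    refine le_trans (le_of_eq ?_) key2
    exact (aux _ _).symm
  · intro x y
    rw [← ENNReal.toReal_min (fdt x) (gdt y)]
    refine ENNReal.toReal_mono (hdt _) (le_min ((min_le_left _ _).trans (fd x)) ?_)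
    have e1 : min (f x / M) (g y / N) =
        min (f x / M) (g y / N) ^ (1 - l) * min (f x / M) (g y / N) ^ l := by
      rw [← ENNReal.rpow_add_of_nonneg _ _ h1l.le hl0.le]
      simp
    rw [e1]
    refine le_trans (mul_le_mul' (ENNReal.rpow_le_rpow (min_le_left _ _) h1l.le)
      (ENNReal.rpow_le_rpow (min_le_right _ _) hl0.le)) ?_
    rw [ENNReal.div_rpow_of_nonneg _ _ h1l.le, ENNReal.div_rpow_of_nonneg _ _ hl0.le,
      ENNReal.le_div_iff_mul_le (Or.inl hK0) (Or.inl hK1), aux]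
    exact hyp x y

/-- Prekopa-Leindler on the line. -/
theorem pl_line {f g h : ℝ → ℝ≥0∞} (hf : Measurable f) (hg : Measurable g) (hh : Measurable h)
    {l : ℝ} (hl0 : 0 < l) (hl1 : l < 1)
    (hyp : ∀ x y, f x ^ (1 - l) * g y ^ l ≤ h ((1 - l) * x + l * y)) :
    (∫⁻ x, f x) ^ (1 - l) * (∫⁻ x, g x) ^ l ≤ ∫⁻ x, h x := by
  have h1l : (0:ℝ) < 1 - l := by linarith
  by_cases hf0 : ∫⁻ x, f x = 0
  · rw [hf0, ENNReal.zero_rpow_of_pos h1l, zero_mul]; exact zero_le
  by_cases hg0 : ∫⁻ x, g x = 0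
  · rw [hg0, ENNReal.zero_rpow_of_pos hl0, mul_zero]; exact zero_le
  have key : ∀ m : ℕ, (∫⁻ x, min (f x) (m:ℝ≥0∞)) ^ (1 - l) * (∫⁻ x, min (g x) (m:ℝ≥0∞)) ^ l ≤
      ∫⁻ x, h x := by
    intro m
    by_cases hM0 : (⨆ x, min (f x) (m:ℝ≥0∞)) = 0
    · have : ∀ x, min (f x) (m:ℝ≥0∞) = 0 := by
        intro x
        exact le_antisymm (hM0 ▸ le_iSup (fun x => min (f x) (m:ℝ≥0∞)) x) zero_le
      simp only [this, lintegral_zero, ENNReal.zero_rpow_of_pos h1l, zero_mul]
      exact zero_le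
    by_cases hN0 : (⨆ x, min (g x) (m:ℝ≥0∞)) = 0
    · have : ∀ x, min (g x) (m:ℝ≥0∞) = 0 := by
        intro x
        exact le_antisymm (hN0 ▸ le_iSup (fun x => min (g x) (m:ℝ≥0∞)) x) zero_le
      simp only [this, lintegral_zero, ENNReal.zero_rpow_of_pos hl0, mul_zero]
      exact zero_le
    have bdd : ∀ u : ℝ → ℝ≥0∞, (⨆ x, min (u x) (m:ℝ≥0∞)) ≠ ⊤ := by
      intro u
      refine ne_top_of_le_ne_top (ENNReal.natCast_ne_top m) (iSup_le (fun x => min_le_right _ _))
    refine pl_line_bdd (hf.min measurable_const) (hg.min measurable_const) hh hl0 hl1 ?_ hM0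
      (bdd f) hN0 (bdd g)
    intro x y
    exact le_trans (mul_le_mul' (ENNReal.rpow_le_rpow (min_le_left _ _) h1l.le)
      (ENNReal.rpow_le_rpow (min_le_left _ _) hl0.le)) (hyp x y)
  have lim : ∀ u : ℝ → ℝ≥0∞, Measurable u →
      Tendsto (fun m : ℕ => ∫⁻ x, min (u x) (m:ℝ≥0∞)) atTop (𝓝 (∫⁻ x, u x)) := by
    intro u hu
    refine lintegral_tendsto_of_tendsto_of_monotone
      (fun m => (hu.min measurable_const).aemeasurable) ?_ ?_
    · refine Eventually.of_forall (fun x => ?_)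
      intro m m' hm
      exact min_le_min_left _ (by exact_mod_cast hm)
    · refine Eventually.of_forall (fun x => ?_)
      have : Tendsto (fun m : ℕ => min (u x) (m:ℝ≥0∞)) atTop (𝓝 (min (u x) ⊤)) :=
        tendsto_const_nhds.min ENNReal.tendsto_nat_nhds_top
      simpa using this
  have l1 := (ENNReal.continuous_rpow_const (y := 1 - l)).tendsto _ |>.comp (lim f hf)
  have l2 := (ENNReal.continuous_rpow_const (y := l)).tendsto _ |>.comp (lim g hg)
  have n1 : (∫⁻ x, f x) ^ (1 - l) ≠ 0 := by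
    rw [Ne, ENNReal.rpow_eq_zero_iff_of_pos h1l]; exact hf0
  have n2 : (∫⁻ x, g x) ^ l ≠ 0 := by
    rw [Ne, ENNReal.rpow_eq_zero_iff_of_pos hl0]; exact hg0
  have l3 := ENNReal.Tendsto.mul l1 (Or.inl n1) l2 (Or.inl n2)
  exact le_of_tendsto' l3 (fun m => key m)

end BM64
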