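import Pool.Agent.Helper64_BM.One

/-!
Brunn-Minkowski, part 2: the Prekopa-Leindler inequality in `Fin n → ℝ`.
-/

set_option autoImplicit false

open MeasureTheory Set Filter Topology
open scoped ENNReal Pointwise

namespace BM64

lemma symm_apply {n : ℕ} (p : ℝ × (Fin n → ℝ)) :
    (MeasurableEquiv.piFinSuccAbove (fun _ : Fin (n + 1) => ℝ) 0).symm p =
      (Fin.cons p.1 p.2 : Fin (n + 1) → ℝ) := by
  simp only [MeasurableEquiv.piFinSuccAbove_symm_apply, Fin.insertNthEquiv, Equiv.coe_fn_mk,
    Fin.insertNth_zero']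

/-- Fubini in `Fin (n + 1) → ℝ`. -/
lemma lintegral_cons {n : ℕ} {f : (Fin (n + 1) → ℝ) → ℝ≥0∞} (hf : Measurable f) :
    ∫⁻ x, f x = ∫⁻ s : ℝ, ∫⁻ y : Fin n → ℝ, f (Fin.cons s y) := by
  have hem : MeasurePreserving (MeasurableEquiv.piFinSuccAbove (fun _ : Fin (n + 1) => ℝ) 0).symm :=
    (volume_preserving_piFinSuccAbove (fun _ : Fin (n + 1) => ℝ) 0).symm _
  rw [← hem.lintegral_comp hf, Measure.volume_eq_prod, lintegral_prod _ (by
    exact (hf.comp hem.measurable).aemeasurable)]
  simp only [symm_apply]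

lemma measurable_cons {n : ℕ} {f : (Fin (n + 1) → ℝ) → ℝ≥0∞} (hf : Measurable f) :
    Measurable (fun p : ℝ × (Fin n → ℝ) => f (Fin.cons p.1 p.2)) := by
  have hem : MeasurePreserving (MeasurableEquiv.piFinSuccAbove (fun _ : Fin (n + 1) => ℝ) 0).symm :=
    (volume_preserving_piFinSuccAbove (fun _ : Fin (n + 1) => ℝ) 0).symm _
  have h := hf.comp hem.measurable
  have e : (f ∘ (MeasurableEquiv.piFinSuccAbove (fun _ : Fin (n + 1) => ℝ) 0).symm) =
      fun p : ℝ × (Fin n → ℝ) => f (Fin.cons p.1 p.2) := by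
    ext p
    simp only [Function.comp_apply, symm_apply]
  rwa [e] at h

/-- Prekopa-Leindler in `Fin n → ℝ`. -/
theorem pl_pi {l : ℝ} (hl0 : 0 < l) (hl1 : l < 1) : ∀ (n : ℕ) {f g h : (Fin n → ℝ) → ℝ≥0∞},
    Measurable f → Measurable g → Measurable h →
    (∀ x y, f x ^ (1 - l) * g y ^ l ≤ h ((1 - l) • x + l • y)) →
    (∫⁻ x, f x) ^ (1 - l) * (∫⁻ x, g x) ^ l ≤ ∫⁻ x, h x := by
  have h1l : (0:ℝ) < 1 - l := by linarith
  intro n
  induction n with
  | zero =>
    intro f g h hf hg hh hyp
    have e : ∀ u : (Fin 0 → ℝ) → ℝ≥0∞, ∫⁻ x, u x = u 0 := by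
      intro u
      have : (volume : Measure (Fin 0 → ℝ)) = Measure.dirac 0 := by
        rw [volume_pi]
        exact Measure.pi_of_empty _ _
      rw [this]
      exact lintegral_dirac _ _
    rw [e, e, e]
    have := hyp 0 0
    simpa using this
  | succ n ih =>
    intro f g h hf hg hh hyp
    rw [lintegral_cons hf, lintegral_cons hg, lintegral_cons hh]
    have mf := measurable_cons hf
    have mg := measurable_cons hg
    have mh := measurable_cons hh
    refine pl_line mf.lintegral_prod_right' mg.lintegral_prod_right' mh.lintegral_prod_right'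
      hl0 hl1 ?_
    intro s t
    refine ih (mf.comp measurable_prodMk_left) (mg.comp measurable_prodMk_left)
      (mh.comp measurable_prodMk_left) ?_
    intro x y
    refine (hyp (Fin.cons s x) (Fin.cons t y)).trans (le_of_eq ?_)
    show h _ = h _
    congr 1
    ext i
    refine Fin.cases ?_ (fun j => ?_) i
    · simp
    · simp

/-- Multiplicative Brunn-Minkowski in `Fin n → ℝ`. -/
theorem bm_mul_pi {n : ℕ} {l : ℝ} (hl0 : 0 < l) (hl1 : l < 1) {A B C : Set (Fin n → ℝ)}
    (hA : MeasurableSet A) (hB : MeasurableSet B) (hC : MeasurableSet C)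
    (h : ∀ x ∈ A, ∀ y ∈ B, (1 - l) • x + l • y ∈ C) :
    volume A ^ (1 - l) * volume B ^ l ≤ volume C := by
  have h1l : (0:ℝ) < 1 - l := by linarith
  have := pl_pi hl0 hl1 n (f := A.indicator 1) (g := B.indicator 1) (h := C.indicator 1)
    (measurable_one.indicator hA) (measurable_one.indicator hB) (measurable_one.indicator hC) ?_
  · rwa [lintegral_indicator_one hA, lintegral_indicator_one hB, lintegral_indicator_one hC] at this
  · intro x y
    by_cases hx : x ∈ A
    · by_cases hy : y ∈ B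
      · rw [indicator_of_mem hx, indicator_of_mem hy, indicator_of_mem (h x hx y hy)]
        simp
      · rw [indicator_of_notMem hy, ENNReal.zero_rpow_of_pos hl0, mul_zero]; exact zero_le
    · rw [indicator_of_notMem hx, ENNReal.zero_rpow_of_pos h1l, zero_mul]; exact zero_le

end BM64
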