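import Pool.Agent.Helper64_BM.Body
import Pool.Agent.Helper64_BM.Main

/-!
The volume of `M + t • K` is a polynomial in `t ≥ 0`; Minkowski's first inequality.
-/

set_option autoImplicit false

open MeasureTheory Set Filter Topology
open scoped ENNReal Pointwise NNReal

namespace BM64

/-- Reversed polynomial function. -/
noncomputable def rev (m : ℕ) (q : Polynomial ℝ) (s : ℝ) : ℝ :=
  ∑ i ∈ Finset.range (m + 1), q.coeff i * s ^ (m - i)

lemma rev_continuous (m : ℕ) (q : Polynomial ℝ) : Continuous (rev m q) := by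
  unfold rev
  fun_prop

lemma rev_zero (m : ℕ) (q : Polynomial ℝ) : rev m q 0 = q.coeff m := by
  unfold rev
  rw [Finset.sum_range_succ, Finset.sum_eq_zero, zero_add, Nat.sub_self, pow_zero, mul_one]
  intro i hi
  rw [Finset.mem_range] at hi
  rw [zero_pow (by omega), mul_zero]

lemma rev_eval {m : ℕ} {q : Polynomial ℝ} (hq : q.natDegree ≤ m) {s : ℝ} (hs : s ≠ 0) :
    rev m q s = s ^ m * q.eval s⁻¹ := by
  rw [Polynomial.eval_eq_sum_range' (Nat.lt_succ_of_le hq), Finset.mul_sum]
  refine Finset.sum_congr rfl (fun i hi => ?_)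
  have hi' : i ≤ m := Nat.lt_succ_iff.mp (Finset.mem_range.mp hi)
  have : s ^ m = s ^ (m - i) * s ^ i := by rw [← pow_add, Nat.sub_add_cancel hi']
  rw [this, inv_pow]
  field_simp

lemma coeff_top_nonneg {m : ℕ} {q : Polynomial ℝ} (hq : q.natDegree ≤ m)
    (h : ∀ t : ℝ, 0 < t → 0 ≤ q.eval t) : 0 ≤ q.coeff m := by
  rw [← rev_zero]
  have hc : Tendsto (rev m q) (𝓝[>] 0) (𝓝 (rev m q 0)) :=
    ((rev_continuous m q).tendsto 0).mono_left nhdsWithin_le_nhds
  refine ge_of_tendsto hc ?_
  filter_upwards [self_mem_nhdsWithin] with s hs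
  have hs' : (0:ℝ) < s := hs
  rw [rev_eval hq hs'.ne']
  exact mul_nonneg (by positivity) (h _ (by positivity))

lemma coeff_one_nonneg {q : Polynomial ℝ} (h0 : q.coeff 0 = 0)
    (h : ∀ t : ℝ, 0 < t → 0 ≤ q.eval t) : 0 ≤ q.coeff 1 := by
  obtain ⟨r, hr⟩ := Polynomial.X_dvd_iff.mpr h0
  have h1 : q.coeff 1 = r.eval 0 := by
    rw [hr, Polynomial.coeff_X_mul, ← Polynomial.coeff_zero_eq_eval_zero]
  rw [h1]
  have hc : Tendsto (fun t => r.eval t) (𝓝[>] 0) (𝓝 (r.eval 0)) :=
    (r.continuous.tendsto 0).mono_left nhdsWithin_le_nhds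
  refine ge_of_tendsto hc ?_
  filter_upwards [self_mem_nhdsWithin] with s hs
  have hs' : (0:ℝ) < s := hs
  have := h s hs'
  rw [hr, Polynomial.eval_mul, Polynomial.eval_X] at this
  exact nonneg_of_mul_nonneg_right this hs'

variable {E : Type*} [NormedAddCommGroup E] [NormedSpace ℝ E] [FiniteDimensional ℝ E]
  [MeasurableSpace E] [BorelSpace E]

theorem haar_polyOn (μ : Measure E) [μ.IsAddHaarMeasure]
    {M K : Set E} (hM : IsCompact M) (hMc : Convex ℝ M)
    (hK : IsCompact K) (hKc : Convex ℝ K) (hMi : (interior M).Nonempty) (hK0 : K.Nonempty) :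
    PolyOn (Module.finrank ℝ E) (fun t => μ.real (M + t • K)) := by
  obtain ⟨e⟩ : Nonempty (E ≃L[ℝ] (Fin (Module.finrank ℝ E) → ℝ)) :=
    ⟨ContinuousLinearEquiv.ofFinrankEq (by simp)⟩
  have hmeas' : Measurable e.symm := e.symm.continuous.measurable
  obtain ⟨c, hc⟩ : ∃ c : ℝ≥0, μ = c • Measure.map e.symm volume := by
    have : (Measure.map e.symm (volume : Measure (Fin (Module.finrank ℝ E) → ℝ))).IsAddHaarMeasure :=
      e.symm.isAddHaarMeasure_map volume
    exact ⟨_, Measure.isAddLeftInvariant_eq_smul μ _⟩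
  have ev : ∀ S : Set E, MeasurableSet S → μ.real S = (c : ℝ) * volume.real (e '' S) := by
    intro S hS
    have : μ S = (c : ℝ≥0∞) * volume (e '' S) := by
      conv_lhs => rw [hc]
      rw [Measure.smul_apply, Measure.map_apply hmeas' hS, e.image_eq_preimage_symm]
      rfl
    rw [measureReal_def, this, ENNReal.toReal_mul]
    rfl
  have hbody := body_polyOn (M := e '' M) (K := e '' K) (hM.image e.continuous)
    (hMc.linear_image e.toLinearEquiv.toLinearMap) (hK.image e.continuous)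
    (hKc.linear_image e.toLinearEquiv.toLinearMap)
    (by
      obtain ⟨x, hx⟩ := hMi
      refine ⟨e x, mem_interior.mpr ⟨e '' interior M, image_mono interior_subset, ?_, ⟨x, hx, rfl⟩⟩⟩
      exact e.toHomeomorph.isOpenMap _ isOpen_interior)
    (hK0.image _)
  have e1 : ∀ t : ℝ, e '' (M + t • K) = e '' M + t • (e '' K) := by
    intro t
    rw [image_add]
    congr 1
    ext y
    constructor
    · rintro ⟨_, ⟨x, hx, rfl⟩, rfl⟩
      exact ⟨e x, ⟨x, hx, rfl⟩, by simp⟩
    · rintro ⟨_, ⟨x, hx, rfl⟩, rfl⟩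
      exact ⟨t • x, ⟨x, hx, rfl⟩, by simp⟩
  have hms : ∀ t : ℝ, MeasurableSet (M + t • K) := fun t => (hM.add (hK.smul t)).measurableSet
  intro t ht
  show μ.real (M + t • K) = ∑ j ∈ Finset.range (Module.finrank ℝ E + 1),
    μ.real (M + (j:ℝ) • K) * _
  simp only [ev _ (hms _), e1]
  have := hbody t ht
  simp only at this
  rw [this, Finset.mul_sum]
  refine Finset.sum_congr rfl (fun j _ => ?_)
  ring

/-- The volume of `s • M + K` tends to the volume of `K`. -/
lemma vol_tendsto (μ : Measure E) [μ.IsAddHaarMeasure]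
    {M K : Set E} (hM : IsCompact M) (hK : IsCompact K) (hM0 : M.Nonempty) :
    Tendsto (fun s : ℝ => μ.real (s • M + K)) (𝓝[>] 0) (𝓝 (μ.real K)) := by
  obtain ⟨R, hR⟩ := hM.isBounded.subset_closedBall 0
  obtain ⟨m₀, hm₀⟩ := hM0
  have hR0 : 0 ≤ R := by
    have := hR hm₀
    rw [mem_closedBall_zero_iff] at this
    exact (norm_nonneg _).trans this
  have h1 : Tendsto (fun s : ℝ => μ (Metric.cthickening (s * R) K)) (𝓝 0) (𝓝 (μ K)) := by
    have := tendsto_measure_cthickening_of_isCompact (μ := μ) hK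
    refine this.comp ?_
    have hc : Continuous (fun s : ℝ => s * R) := by fun_prop
    have := hc.tendsto 0
    rwa [zero_mul] at this
  have h2 : Tendsto (fun s : ℝ => μ.real (Metric.cthickening (s * R) K)) (𝓝[>] 0)
      (𝓝 (μ.real K)) :=
    ((ENNReal.tendsto_toReal hK.measure_lt_top.ne).comp h1).mono_left nhdsWithin_le_nhds
  refine tendsto_of_tendsto_of_tendsto_of_le_of_le' tendsto_const_nhds h2 ?_ ?_
  · refine Eventually.of_forall (fun s => ?_)
    have hcomp : IsCompact (s • M + K) := (hM.smul s).add hK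
    refine ENNReal.toReal_mono hcomp.measure_lt_top.ne ?_
    rw [← measure_preimage_add μ (-(s • m₀)) K]
    refine measure_mono (fun y hy => ⟨s • m₀, ⟨m₀, hm₀, rfl⟩, -(s • m₀) + y, hy, ?_⟩)
    simp
  · filter_upwards [self_mem_nhdsWithin] with s hs
    have hs' : (0:ℝ) < s := hs
    refine ENNReal.toReal_mono ?_ ?_
    · exact hK.isBounded.cthickening.measure_lt_top.ne
    · refine measure_mono ?_
      rintro _ ⟨_, ⟨m, hm, rfl⟩, k, hk, rfl⟩
      refine Metric.mem_cthickening_of_dist_le _ k _ _ hk ?_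
      show dist (s • m + k) k ≤ s * R
      rw [dist_eq_norm, add_sub_cancel_right, norm_smul, Real.norm_of_nonneg hs'.le]
      have := hR hm
      rw [mem_closedBall_zero_iff] at this
      gcongr

/-- The volume of `M + t • K` is a polynomial in `t ≥ 0` of degree at most the dimension, with
constant coefficient the volume of `M` and top coefficient the volume of `K`. -/
theorem exists_poly (μ : Measure E) [μ.IsAddHaarMeasure]
    {M K : Set E} (hM : IsCompact M) (hMc : Convex ℝ M)
    (hK : IsCompact K) (hKc : Convex ℝ K) (hMi : (interior M).Nonempty) (hK0 : K.Nonempty) :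
    ∃ p : Polynomial ℝ, p.natDegree ≤ Module.finrank ℝ E ∧
      (∀ t : ℝ, 0 ≤ t → μ.real (M + t • K) = p.eval t) ∧
      p.coeff 0 = μ.real M ∧ p.coeff (Module.finrank ℝ E) = μ.real K := by
  obtain ⟨n, hn⟩ : ∃ n, n = Module.finrank ℝ E := ⟨_, rfl⟩
  have hP := haar_polyOn μ hM hMc hK hKc hMi hK0
  rw [← hn] at hP ⊢
  have hM0 : M.Nonempty := hMi.mono interior_subset
  obtain ⟨p, hp⟩ : ∃ p, p = Lagrange.interpolate (Finset.range (n + 1)) (fun i : ℕ => (i : ℝ))
    (fun j : ℕ => μ.real (M + (j:ℝ) • K)) := ⟨_, rfl⟩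
  have hinj : Set.InjOn (fun i : ℕ => (i : ℝ)) (Finset.range (n + 1) : Set ℕ) :=
    fun a _ b _ h => Nat.cast_injective h
  have hdeg : p.natDegree ≤ n := by
    have h1 := Lagrange.degree_interpolate_lt (fun j : ℕ => μ.real (M + (j:ℝ) • K)) hinj
    rw [← hp, Finset.card_range] at h1
    rw [Polynomial.natDegree_le_iff_degree_le]
    exact Order.lt_succ_iff.mp (by exact_mod_cast h1)
  have hval : ∀ t : ℝ, 0 ≤ t → μ.real (M + t • K) = p.eval t := by
    intro t ht
    rw [hp, Lagrange.interpolate_apply, Polynomial.eval_finsetSum]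
    simp only [Polynomial.eval_mul, Polynomial.eval_C]
    exact hP t ht
  refine ⟨p, hdeg, hval, ?_, ?_⟩
  · rw [Polynomial.coeff_zero_eq_eval_zero, ← hval 0 le_rfl, zero_smul_set hK0, add_zero]
  · rw [← rev_zero]
    have h1 : Tendsto (rev n p) (𝓝[>] 0) (𝓝 (rev n p 0)) :=
      ((rev_continuous n p).tendsto 0).mono_left nhdsWithin_le_nhds
    have h2 := vol_tendsto μ hM hK hM0
    refine tendsto_nhds_unique (h1.congr' ?_) h2
    filter_upwards [self_mem_nhdsWithin] with s hs
    have hs' : (0:ℝ) < s := hs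
    rw [rev_eval hdeg hs'.ne', ← hval _ (by positivity)]
    have e1 : s • M + K = s • (M + s⁻¹ • K) := by
      rw [smul_add, smul_smul, mul_inv_cancel₀ hs'.ne', one_smul]
    rw [e1, measureReal_def, measureReal_def, Measure.addHaar_smul, ENNReal.toReal_mul, ← hn,
      abs_of_pos (by positivity), ENNReal.toReal_ofReal (by positivity)]

end BM64
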