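import Pool.Agent.Helper64_BM.Lse

/-!
The volume of `P + t • Q` for polytopes `P, Q` in `Fin n → ℝ` is the integral of
`det (hess S x + t • hess T x)`.
-/

set_option autoImplicit false

open MeasureTheory Set Filter Topology Matrix
open scoped ENNReal Pointwise

namespace BM64

variable {n : ℕ}

lemma not_const {S : Finset (Fin n → ℝ)}
    (hP : (interior (convexHull ℝ (S : Set (Fin n → ℝ)))).Nonempty) (u : Fin n → ℝ)
    (h : ∀ s ∈ S, ∀ r ∈ S, s ⬝ᵥ u = r ⬝ᵥ u) : u = 0 := by
  obtain ⟨y, hy⟩ := hP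
  have hne : S.Nonempty := by
    rw [← Finset.coe_nonempty, ← convexHull_nonempty_iff (𝕜 := ℝ)]
    exact ⟨y, interior_subset hy⟩
  obtain ⟨s₀, hs₀⟩ := hne
  have hsub : convexHull ℝ (S : Set (Fin n → ℝ)) ⊆ {p | p ⬝ᵥ u = s₀ ⬝ᵥ u} := by
    refine convexHull_min (fun s hs => h s hs s₀ hs₀) ?_
    intro p hp q hq a b _ _ hab
    simp only [mem_ofPred_eq] at hp hq ⊢
    rw [add_dotProduct, smul_dotProduct, smul_dotProduct, hp, hq, ← add_smul, hab, one_smul]
  have hnear : ∀ᶠ e : ℝ in 𝓝 0, y + e • u ∈ convexHull ℝ (S : Set (Fin n → ℝ)) := by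
    have hc : Continuous (fun e : ℝ => y + e • u) := by fun_prop
    have h0 : y + (0:ℝ) • u = y := by simp
    have := hc.tendsto (0:ℝ)
    rw [h0] at this
    exact this (mem_interior_iff_mem_nhds.mp hy)
  obtain ⟨e, he, hmem⟩ := ((eventually_nhdsWithin_of_eventually_nhds hnear).and
    self_mem_nhdsWithin : ∀ᶠ e : ℝ in 𝓝[>] 0, _).exists
  have h1 : (y + e • u) ⬝ᵥ u = s₀ ⬝ᵥ u := hsub he
  have h2 : y ⬝ᵥ u = s₀ ⬝ᵥ u := hsub (interior_subset hy)
  rw [add_dotProduct, smul_dotProduct, smul_eq_mul] at h1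
  have h3 : e * (u ⬝ᵥ u) = 0 := by linarith
  have h4 := (mul_eq_zero.mp h3).resolve_left (ne_of_gt hmem)
  exact dotProduct_self_eq_zero.mp h4

/-- The sum of the gradient maps. -/
noncomputable def gm (S T : Finset (Fin n → ℝ)) (t : ℝ) (x : Fin n → ℝ) : Fin n → ℝ :=
  grd S x + t • grd T x

lemma gm_injective {S T : Finset (Fin n → ℝ)} (hT : T.Nonempty)
    (hP : (interior (convexHull ℝ (S : Set (Fin n → ℝ)))).Nonempty) {t : ℝ} (ht : 0 ≤ t) :
    Function.Injective (gm S T t) := by
  have hne : S.Nonempty := by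
    rw [← Finset.coe_nonempty, ← convexHull_nonempty_iff (𝕜 := ℝ)]
    exact hP.mono interior_subset
  intro x y hxy
  have hx : x = y + (x - y) := by abel
  have h1 := grd_mono hne y (x - y)
  have h2 := grd_mono hT y (x - y)
  rw [← hx] at h1 h2
  have h3 : (grd S x - grd S y) ⬝ᵥ (x - y) + t * ((grd T x - grd T y) ⬝ᵥ (x - y)) = 0 := by
    have : (gm S T t x - gm S T t y) ⬝ᵥ (x - y) = 0 := by rw [hxy]; simp
    rw [← this]
    unfold gm
    rw [show grd S x + t • grd T x - (grd S y + t • grd T y) =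
      (grd S x - grd S y) + t • (grd T x - grd T y) by rw [smul_sub]; abel]
    rw [add_dotProduct, smul_dotProduct, smul_eq_mul]
  have h4 : (grd S x - grd S y) ⬝ᵥ (x - y) = 0 := by
    have := mul_nonneg ht h2.1
    linarith [h1.1]
  have := not_const hP (x - y) (h1.2 h4)
  exact sub_eq_zero.mp this

lemma gm_mem {S T : Finset (Fin n → ℝ)} (hS : S.Nonempty) (hT : T.Nonempty) (t : ℝ)
    (x : Fin n → ℝ) :
    gm S T t x ∈ convexHull ℝ (S : Set (Fin n → ℝ)) + t • convexHull ℝ (T : Set (Fin n → ℝ)) :=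
  ⟨_, grd_mem hS x, _, ⟨_, grd_mem hT x, rfl⟩, rfl⟩

lemma log_lower {S : Finset (Fin n → ℝ)} (hS : S.Nonempty) (x p : Fin n → ℝ)
    (hp : p ∈ convexHull ℝ (S : Set (Fin n → ℝ))) : p ⬝ᵥ x ≤ Real.log (Zf S x) := by
  have hsub : convexHull ℝ (S : Set (Fin n → ℝ)) ⊆ {p | p ⬝ᵥ x ≤ Real.log (Zf S x)} := by
    refine convexHull_min (fun s hs => ?_) ?_
    · simp only [mem_ofPred_eq]
      rw [Real.le_log_iff_exp_le (Zf_pos hS x)]
      exact Finset.single_le_sum (f := fun s => Real.exp (s ⬝ᵥ x))
        (fun _ _ => (Real.exp_pos _).le) hs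
    · intro p hp q hq a b ha hb hab
      simp only [mem_ofPred_eq] at hp hq ⊢
      rw [add_dotProduct, smul_dotProduct, smul_dotProduct, smul_eq_mul, smul_eq_mul]
      calc a * (p ⬝ᵥ x) + b * (q ⬝ᵥ x) ≤ a * Real.log (Zf S x) + b * Real.log (Zf S x) := by gcongr
        _ = Real.log (Zf S x) := by rw [← add_mul, hab, one_mul]
  exact hsub hp

lemma gm_surj {S T : Finset (Fin n → ℝ)} (hS : S.Nonempty) (hT : T.Nonempty) {t : ℝ} (ht : 0 ≤ t)
    {y : Fin n → ℝ} (hy : y ∈ interior (convexHull ℝ (S : Set (Fin n → ℝ)) +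
      t • convexHull ℝ (T : Set (Fin n → ℝ)))) : ∃ x, gm S T t x = y := by
  obtain ⟨ρ, hρ, hball⟩ := Metric.mem_nhds_iff.mp (mem_interior_iff_mem_nhds.mp hy)
  have hd : ∀ x, HasFDerivAt (fun x => Real.log (Zf S x) + t * Real.log (Zf T x) - ell y x)
      (ell (grd S x) + t • ell (grd T x) - ell y) x := fun x =>
    ((hasFDerivAt_log hS x).add ((hasFDerivAt_log hT x).const_mul t)).sub (ell y).hasFDerivAt
  have hcont : Continuous (fun x => Real.log (Zf S x) + t * Real.log (Zf T x) - ell y x) :=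
    continuous_iff_continuousAt.mpr (fun x => (hd x).continuousAt)
  have hlow : ∀ x : Fin n → ℝ, ρ / 2 * ‖x‖ ≤
      Real.log (Zf S x) + t * Real.log (Zf T x) - ell y x := by
    intro x
    obtain ⟨w, hw⟩ : ∃ w : Fin n → ℝ, w = fun i => ρ / 2 * SignType.sign (x i) := ⟨_, rfl⟩
    have hwn : ‖w‖ ≤ ρ / 2 := by
      rw [pi_norm_le_iff_of_nonneg (by positivity)]
      intro i
      rw [hw, norm_mul, Real.norm_of_nonneg (by positivity)]
      have : ‖((SignType.sign (x i) : SignType) : ℝ)‖ ≤ 1 := by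
        rcases SignType.sign (x i) with _ | _ | _ <;> simp
      nlinarith
    have hmem : y + w ∈ convexHull ℝ (S : Set (Fin n → ℝ)) +
        t • convexHull ℝ (T : Set (Fin n → ℝ)) := by
      apply hball
      rw [Metric.mem_ball, dist_eq_norm]
      simp only [add_sub_cancel_left]
      linarith
    obtain ⟨p, hp, _, ⟨q, hq, rfl⟩, hpq⟩ := hmem
    have h1 := log_lower hS x p hp
    have h2 := mul_le_mul_of_nonneg_left (log_lower hT x q hq) ht
    have h3 : (y + w) ⬝ᵥ x = p ⬝ᵥ x + t * (q ⬝ᵥ x) := by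
      rw [← hpq]
      show (p + t • q) ⬝ᵥ x = _
      rw [add_dotProduct, smul_dotProduct, smul_eq_mul]
    rw [add_dotProduct] at h3
    have h4 : w ⬝ᵥ x = ρ / 2 * ∑ i, |x i| := by
      rw [hw]
      simp only [dotProduct, Finset.mul_sum]
      refine Finset.sum_congr rfl (fun i _ => ?_)
      rw [mul_assoc, sign_mul_self]
    have h5 : ‖x‖ ≤ ∑ i, |x i| := by
      rw [pi_norm_le_iff_of_nonneg (Finset.sum_nonneg (fun i _ => abs_nonneg _))]
      intro i
      rw [Real.norm_eq_abs]
      exact Finset.single_le_sum (f := fun i => |x i|) (fun i _ => abs_nonneg _) (Finset.mem_univ i)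
    have h6 : ρ / 2 * ‖x‖ ≤ w ⬝ᵥ x := by rw [h4]; gcongr
    rw [ell_apply]
    linarith
  have hcoer : Tendsto (fun x => Real.log (Zf S x) + t * Real.log (Zf T x) - ell y x)
      (cocompact (Fin n → ℝ)) atTop := by
    refine tendsto_atTop_mono hlow ?_
    exact (tendsto_norm_cocompact_atTop).const_mul_atTop (by positivity)
  obtain ⟨x, hx⟩ := hcont.exists_forall_le hcoer
  have hmin : IsLocalMin (fun x => Real.log (Zf S x) + t * Real.log (Zf T x) - ell y x) x :=
    Eventually.of_forall hx
  have h0 := hmin.hasFDerivAt_eq_zero (hd x)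
  refine ⟨x, ?_⟩
  ext i
  have h1 := congrArg (fun L : (Fin n → ℝ) →L[ℝ] ℝ => L (Pi.single i 1)) h0
  simp only [_root_.sub_apply, _root_.add_apply, _root_.smul_apply, ell_apply,
    dotProduct_single, mul_one, _root_.zero_apply, smul_eq_mul] at h1
  unfold gm
  rw [Pi.add_apply, Pi.smul_apply, smul_eq_mul]
  linarith

lemma measure_convex_interior {C : Set (Fin n → ℝ)} (hC : Convex ℝ C) :
    volume (interior C) = volume C := by
  refine le_antisymm (measure_mono interior_subset) ?_
  calc volume C ≤ volume (interior C ∪ frontier C) := by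
        refine measure_mono (fun x hx => ?_)
        by_cases h : x ∈ interior C
        · exact Or.inl h
        · exact Or.inr ⟨subset_closure hx, h⟩
    _ ≤ volume (interior C) + volume (frontier C) := measure_union_le _ _
    _ = volume (interior C) := by rw [hC.addHaar_frontier volume, add_zero]

lemma compact_hull (S : Finset (Fin n → ℝ)) : IsCompact (convexHull ℝ (S : Set (Fin n → ℝ))) :=
  S.finite_toSet.isCompact_convexHull ℝ

lemma vol_lintegral {S T : Finset (Fin n → ℝ)} (hT : T.Nonempty)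
    (hP : (interior (convexHull ℝ (S : Set (Fin n → ℝ)))).Nonempty) {t : ℝ} (ht : 0 ≤ t) :
    volume (convexHull ℝ (S : Set (Fin n → ℝ)) + t • convexHull ℝ (T : Set (Fin n → ℝ))) =
      ∫⁻ x, ENNReal.ofReal (hess S x + t • hess T x).det := by
  have hS : S.Nonempty := by
    rw [← Finset.coe_nonempty, ← convexHull_nonempty_iff (𝕜 := ℝ)]
    exact hP.mono interior_subset
  have hC : Convex ℝ (convexHull ℝ (S : Set (Fin n → ℝ)) +
      t • convexHull ℝ (T : Set (Fin n → ℝ))) :=
    (convex_convexHull ℝ _).add ((convex_convexHull ℝ _).smul t)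
  have hder : ∀ x, HasFDerivAt (gm S T t)
      (LinearMap.toContinuousLinearMap (Matrix.toLin' (hess S x + t • hess T x))) x := by
    intro x
    have h := (hasFDerivAt_grd hS x).add ((hasFDerivAt_grd hT x).const_smul t)
    have e : LinearMap.toContinuousLinearMap (Matrix.toLin' (hess S x)) +
        t • LinearMap.toContinuousLinearMap (Matrix.toLin' (hess T x)) =
        LinearMap.toContinuousLinearMap (Matrix.toLin' (hess S x + t • hess T x)) := by
      refine ContinuousLinearMap.ext (fun u => ?_)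
      simp
    rw [e] at h
    exact h
  have hdet : ∀ x, 0 ≤ (hess S x + t • hess T x).det := fun x =>
    ((hess_posSemidef hS x).add ((hess_posSemidef hT x).smul ht)).det_nonneg
  have hcv := lintegral_abs_det_fderiv_eq_addHaar_image (volume : Measure (Fin n → ℝ))
    (s := univ) (f := gm S T t) MeasurableSet.univ (fun x _ => (hder x).hasFDerivWithinAt)
    (gm_injective hT hP ht).injOn
  rw [Measure.restrict_univ, image_univ] at hcv
  have e1 : volume (range (gm S T t)) = volume (convexHull ℝ (S : Set (Fin n → ℝ)) +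
      t • convexHull ℝ (T : Set (Fin n → ℝ))) := by
    refine le_antisymm (measure_mono ?_) ?_
    · rintro _ ⟨x, rfl⟩
      exact gm_mem hS hT t x
    · rw [← measure_convex_interior hC]
      refine measure_mono (fun y hy => ?_)
      obtain ⟨x, hx⟩ := gm_surj hS hT ht hy
      exact ⟨x, hx⟩
  rw [← e1, ← hcv]
  refine lintegral_congr (fun x => ?_)
  have e2 : (LinearMap.toContinuousLinearMap (Matrix.toLin' (hess S x + t • hess T x))).det =
      (hess S x + t • hess T x).det := by
    rw [ContinuousLinearMap.det, LinearMap.coe_toContinuousLinearMap, LinearMap.det_toLin']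
  rw [e2, abs_of_nonneg (hdet x)]

lemma continuous_grd {S : Finset (Fin n → ℝ)} (hS : S.Nonempty) : Continuous (grd S) :=
  continuous_iff_continuousAt.mpr (fun x => (hasFDerivAt_grd hS x).continuousAt)

lemma continuous_wt {S : Finset (Fin n → ℝ)} (hS : S.Nonempty) (s : Fin n → ℝ) :
    Continuous (fun x => wt S x s) :=
  continuous_iff_continuousAt.mpr (fun x => (hasFDerivAt_wt hS x s).continuousAt)

lemma continuous_hess {S : Finset (Fin n → ℝ)} (hS : S.Nonempty) : Continuous (hess S) := by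
  unfold hess
  refine continuous_finsetSum _ (fun s _ => ?_)
  have h1 : Continuous (fun x => s - grd S x) := continuous_const.sub (continuous_grd hS)
  exact (continuous_wt hS s).smul (h1.matrix_vecMulVec h1)

/-- The values of `F` at nonnegative reals are given by Lagrange interpolation at `0, ..., n`. -/
def PolyOn (n : ℕ) (F : ℝ → ℝ) : Prop :=
  ∀ t : ℝ, 0 ≤ t → F t = ∑ j ∈ Finset.range (n + 1),
    F j * (Lagrange.basis (Finset.range (n + 1)) (fun i : ℕ => (i : ℝ)) j).eval t

lemma poly_polyOn {n : ℕ} (p : Polynomial ℝ) (hp : p.natDegree ≤ n) (t : ℝ) :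
    p.eval t = ∑ j ∈ Finset.range (n + 1),
      p.eval (j : ℝ) * (Lagrange.basis (Finset.range (n + 1)) (fun i : ℕ => (i : ℝ)) j).eval t := by
  have hinj : Set.InjOn (fun i : ℕ => (i : ℝ)) (Finset.range (n + 1) : Set ℕ) :=
    fun a _ b _ h => Nat.cast_injective h
  have hdeg : p.degree < (Finset.range (n + 1)).card := by
    rw [Finset.card_range]
    exact lt_of_le_of_lt Polynomial.degree_le_natDegree (by exact_mod_cast Nat.lt_succ_of_le hp)
  have h := Lagrange.eq_interpolate hinj hdeg
  conv_lhs => rw [h]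
  rw [Lagrange.interpolate_apply, Polynomial.eval_finsetSum]
  simp only [Polynomial.eval_mul, Polynomial.eval_C]

lemma det_poly (A B : Matrix (Fin n) (Fin n) ℝ) :
    ∃ p : Polynomial ℝ, p.natDegree ≤ n ∧ ∀ t, (A + t • B).det = p.eval t := by
  refine ⟨(((Polynomial.X : Polynomial ℝ) • B.map Polynomial.C + A.map Polynomial.C)).det, ?_, ?_⟩
  · have := Polynomial.natDegree_det_X_add_C_le B A
    simpa using this
  · intro t
    rw [← Polynomial.coe_evalRingHom, RingHom.map_det]
    congr 1
    ext i j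
    simp [add_comm]
    exact mul_comm _ _

theorem polytope_polyOn {S T : Finset (Fin n → ℝ)} (hT : T.Nonempty)
    (hP : (interior (convexHull ℝ (S : Set (Fin n → ℝ)))).Nonempty) :
    PolyOn n (fun t => volume.real
      (convexHull ℝ (S : Set (Fin n → ℝ)) + t • convexHull ℝ (T : Set (Fin n → ℝ)))) := by
  have hS : S.Nonempty := by
    rw [← Finset.coe_nonempty, ← convexHull_nonempty_iff (𝕜 := ℝ)]
    exact hP.mono interior_subset
  have hdet : ∀ t : ℝ, 0 ≤ t → ∀ x, 0 ≤ (hess S x + t • hess T x).det := fun t ht x =>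
    ((hess_posSemidef hS x).add ((hess_posSemidef hT x).smul ht)).det_nonneg
  have hcontdet : ∀ t : ℝ, Continuous (fun x => (hess S x + t • hess T x).det) := fun t =>
    ((continuous_hess hS).add ((continuous_hess hT).const_smul t)).matrix_det
  have hfin : ∀ t : ℝ, 0 ≤ t → ∫⁻ x, ENNReal.ofReal (hess S x + t • hess T x).det ≠ ⊤ := by
    intro t ht
    rw [← vol_lintegral hT hP ht]
    exact ((compact_hull S).add ((compact_hull T).smul t)).measure_lt_top.ne
  have hint : ∀ t : ℝ, 0 ≤ t → Integrable (fun x => (hess S x + t • hess T x).det) := by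
    intro t ht
    refine ⟨(hcontdet t).aestronglyMeasurable, ?_⟩
    rw [hasFiniteIntegral_iff_ofReal (Eventually.of_forall (hdet t ht))]
    exact (hfin t ht).lt_top
  have hval : ∀ t : ℝ, 0 ≤ t → volume.real
      (convexHull ℝ (S : Set (Fin n → ℝ)) + t • convexHull ℝ (T : Set (Fin n → ℝ))) =
      ∫ x, (hess S x + t • hess T x).det := by
    intro t ht
    rw [integral_eq_lintegral_of_nonneg_ae (Eventually.of_forall (hdet t ht))
      (hcontdet t).aestronglyMeasurable, ← vol_lintegral hT hP ht]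
    rfl
  intro t ht
  show volume.real _ = ∑ j ∈ Finset.range (n + 1), volume.real _ * _
  rw [hval t ht]
  have e : ∀ x, (hess S x + t • hess T x).det = ∑ j ∈ Finset.range (n + 1),
      (hess S x + (j:ℝ) • hess T x).det *
        (Lagrange.basis (Finset.range (n + 1)) (fun i : ℕ => (i : ℝ)) j).eval t := by
    intro x
    obtain ⟨p, hp, hpe⟩ := det_poly (hess S x) (hess T x)
    simp only [hpe]
    exact poly_polyOn p hp t
  simp only [e]
  rw [integral_finsetSum _ (fun (j : ℕ) _ => (hint (j:ℝ) (Nat.cast_nonneg j)).mul_const _)]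
  refine Finset.sum_congr rfl (fun j _ => ?_)
  rw [hval j (Nat.cast_nonneg j), integral_mul_const]

end BM64
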